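import Mathlib

set_option autoImplicit false

/-! # Linear combinations with cyclotomic integers of bounded size: definitions -/

namespace Pool.Agent.R870

open MvPolynomial

variable {n N r : ℕ}

/-- `x` is a cyclotomic integer such that the mean of the squares of the absolute values of the
complex conjugates of `x` is at most `B`: `x = f (ζ)` for a primitive `m`-th root of unity `ζ` of
`L` and a polynomial `f` with integer coefficients, and the mean of `|f (z)| ^ 2` over the complex
primitive `m`-th roots of unity `z` is at most `B` -/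
def CycInt {L : Type} [Field L] (B : ℝ) (x : L) : Prop :=
  ∃ (m : ℕ) (ζ : L) (f : Polynomial ℤ), 0 < m ∧ IsPrimitiveRoot ζ m ∧
    (∑ z ∈ primitiveRoots m ℂ, ‖Polynomial.aeval z f‖ ^ 2) / (m.totient : ℝ) ≤ B ∧
    Polynomial.aeval ζ f = x

/-- the points of projective space over `L` with homogeneous coordinates `∑ α_j v_j`, for
cyclotomic integers `α_j` of `L` whose conjugates have mean square at most `B`, which are zeros of
the `P_i` and not of `G` -/
def cycOff {k L : Type} [Field k] [Field L] [Algebra k L]
    (P : Fin N → MvPolynomial (Fin (n + 1)) k) (G : MvPolynomial (Fin (n + 1)) k) (B : ℝ)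
    (v : Fin r → Fin (n + 1) → L) : Set (Projectivization L (Fin (n + 1) → L)) :=
  {p | ∃ α : Fin r → L, (∀ j, CycInt B (α j)) ∧
    (∀ i, aeval (fun a => ∑ j, α j * v j a) (P i) = 0) ∧
    aeval (fun a => ∑ j, α j * v j a) G ≠ 0 ∧
    ∃ h : (fun a => ∑ j, α j * v j a) ≠ 0, p = Projectivization.mk L _ h}

end Pool.Agent.R870
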