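import Mathlib
import Pool.Agent.TH409.SH.Conv

set_option autoImplicit false

/-! # Points on the rational curves of a uniruled variety -/

namespace Pool.Agent.R870

open MvPolynomial Pool.Agent.H533R3.SL

variable {n N : ℕ}

/-- the vector `∑ z ^ j v_j` -/
noncomputable def cpt {L : Type} [Field L] {M : ℕ} (v : Fin M → Fin (n + 1) → L) (z : L) :
    Fin (n + 1) → L := fun a => ∑ j : Fin M, z ^ (j : ℕ) * v j a

/-- the points of a rational curve with parameters in `S`, off `G = 0` -/
def curvePts {k L : Type} [Field k] [Field L] [Algebra k L] {M : ℕ}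
    (G : MvPolynomial (Fin (n + 1)) k) (v : Fin M → Fin (n + 1) → L) (S : Set L) :
    Set (Projectivization L (Fin (n + 1) → L)) :=
  {p | ∃ z ∈ S, aeval (cpt v z) G ≠ 0 ∧ ∃ h : cpt v z ≠ 0, p = Projectivization.mk L (cpt v z) h}

theorem cpt_eq {L : Type} [Field L] {M : ℕ} (v : Fin M → Fin (n + 1) → L) (z : L) :
    (fun i => (cur v (fun j => (j : ℕ)) i).eval z) = cpt v z := by
  funext i
  show (∑ j : Fin M, Polynomial.C (v j i) * Polynomial.X ^ (j : ℕ)).eval z = _
  rw [Polynomial.eval_finsetSum]
  refine Finset.sum_congr rfl fun j _ => ?_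
  rw [Polynomial.eval_mul, Polynomial.eval_C, Polynomial.eval_pow, Polynomial.eval_X, mul_comm]

theorem aeval_cpt {k L : Type} [Field k] [Field L] [Algebra k L] {M : ℕ}
    (v : Fin M → Fin (n + 1) → L) (z : L) (F : MvPolynomial (Fin (n + 1)) k) :
    aeval (cpt v z) F = (aeval (cur v (fun j => (j : ℕ))) F : Polynomial L).eval z := by
  rw [← cpt_eq]
  have h1 : (aeval (cur v (fun j => (j : ℕ))) F : Polynomial L).eval z =
      MvPolynomial.eval₂ ((Polynomial.evalRingHom z).comp (algebraMap k (Polynomial L)))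
        (fun i => Polynomial.evalRingHom z (cur v (fun j => (j : ℕ)) i)) F := by
    rw [MvPolynomial.aeval_def]
    exact MvPolynomial.hom_eval₂ F _ (Polynomial.evalRingHom z) _
  rw [h1, MvPolynomial.aeval_def]
  congr 1
  refine RingHom.ext fun a => ?_
  show _ = Polynomial.eval z (algebraMap k (Polynomial L) a)
  rw [Polynomial.algebraMap_apply]
  show _ = Polynomial.eval z (Polynomial.C _)
  rw [Polynomial.eval_C]

/-- a nonconstant curve has infinitely many points for each infinite set of parameters -/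
theorem curve_inf {k L : Type} [Field k] [Field L] [Algebra k L] {M : ℕ}
    (G : MvPolynomial (Fin (n + 1)) k) (v : Fin M → Fin (n + 1) → L)
    (hc : ∃ i j, cur v (fun j => (j : ℕ)) i * Polynomial.C ((cur v (fun j => (j : ℕ)) j).eval 1) ≠
        cur v (fun j => (j : ℕ)) j * Polynomial.C ((cur v (fun j => (j : ℕ)) i).eval 1))
    (hG : aeval (fun i => (cur v (fun j => (j : ℕ)) i).eval 1) G ≠ 0)
    (S : Set L) (hS : S.Infinite) : (curvePts G v S).Infinite := by
  classical
  obtain ⟨i1, i2, hnc⟩ := hc
  let q : Fin (n + 1) → Polynomial L := cur v (fun j => (j : ℕ))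
  have hnc : q i1 * Polynomial.C ((q i2).eval 1) ≠ q i2 * Polynomial.C ((q i1).eval 1) := hnc
  have hG1 : (aeval q G : Polynomial L) ≠ 0 := by
    intro h
    apply hG
    rw [cpt_eq, aeval_cpt]
    show (aeval q G : Polynomial L).eval 1 = 0
    rw [h, Polynomial.eval_zero]
  intro hfin
  have hne0 : q i1 ≠ 0 ∨ q i2 ≠ 0 := by
    by_contra h
    push Not at h
    apply hnc
    rw [h.1, h.2]
  obtain ⟨i0, hi0⟩ : ∃ i0, q i0 ≠ 0 := hne0.elim (fun h => ⟨_, h⟩) (fun h => ⟨_, h⟩)
  have hbad : {z : L | (q i0 * aeval q G).eval z = 0}.Finite :=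
    Polynomial.finite_setOfPred_isRoot (mul_ne_zero hi0 hG1)
  have hfib : ∀ y : Fin (n + 1) → L, y ≠ 0 →
      {z : L | ∀ i j, (q i).eval z * y j = (q j).eval z * y i}.Finite := by
    intro y hy
    have h1 : ∃ i j, q i * Polynomial.C (y j) ≠ q j * Polynomial.C (y i) := by
      by_contra h
      push Not at h
      obtain ⟨j0, hj0⟩ := Function.ne_iff.1 hy
      simp only [Pi.zero_apply] at hj0
      have h2 : ∀ i, q i = q j0 * Polynomial.C (y i / y j0) := by
        intro i
        have h3 := h i j0
        have h4 : q i * Polynomial.C (y j0) * Polynomial.C (y j0)⁻¹ =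
            q j0 * Polynomial.C (y i) * Polynomial.C (y j0)⁻¹ := by rw [h3]
        rw [mul_assoc, mul_assoc, ← Polynomial.C_mul, ← Polynomial.C_mul, mul_inv_cancel₀ hj0,
          Polynomial.C_1, mul_one, ← div_eq_mul_inv] at h4
        exact h4
      apply hnc
      rw [h2 i1, h2 i2]
      simp only [Polynomial.eval_mul, Polynomial.eval_C, Polynomial.C_mul]
      ring
    obtain ⟨i, j, hij⟩ := h1
    refine (Polynomial.finite_setOfPred_isRoot (sub_ne_zero.2 hij)).subset ?_
    intro t ht
    have := ht i j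
    show Polynomial.eval t _ = 0
    rw [Polynomial.eval_sub, Polynomial.eval_mul, Polynomial.eval_mul, Polynomial.eval_C,
      Polynomial.eval_C, this, sub_self]
  have hsub : S ⊆ {z : L | (q i0 * aeval q G).eval z = 0} ∪
      ⋃ p ∈ curvePts G v S,
        {z : L | ∀ i j, (q i).eval z * p.rep j = (q j).eval z * p.rep i} := by
    intro z hzS
    by_cases h : (q i0 * aeval q G).eval z = 0
    · exact Or.inl h
    · right
      rw [Polynomial.eval_mul] at h
      have h1 : (q i0).eval z ≠ 0 := left_ne_zero_of_mul h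
      have h2 : (aeval q G : Polynomial L).eval z ≠ 0 := right_ne_zero_of_mul h
      have h3 : cpt v z ≠ 0 := by
        intro h0
        apply h1
        have := congrFun (cpt_eq v z) i0
        rw [h0] at this
        exact this
      rw [Set.mem_iUnion₂]
      refine ⟨Projectivization.mk L _ h3, ⟨z, hzS, ?_, h3, rfl⟩, ?_⟩
      · rw [aeval_cpt]
        exact h2
      · obtain ⟨a, ha⟩ := Projectivization.exists_smul_eq_mk_rep L _ h3
        intro i j
        rw [← ha, ← cpt_eq]
        show _ * ((a : L) • (fun i => (q i).eval z)) j =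
          _ * ((a : L) • (fun i => (q i).eval z)) i
        simp only [Pi.smul_apply, smul_eq_mul]
        ring
  exact hS ((hbad.union (hfin.biUnion fun p _ => hfib p.rep p.rep_nonzero)).subset hsub)

theorem cur_map {K L : Type} [Field K] [Field L] (φ : K →+* L) {M : ℕ}
    (v : Fin M → Fin (n + 1) → K) (l : Fin M → ℕ) (i : Fin (n + 1)) :
    cur (fun j a => φ (v j a)) l i = (cur v l i).map φ := by
  unfold cur
  rw [Polynomial.map_sum]
  refine Finset.sum_congr rfl fun j _ => ?_
  rw [Polynomial.map_mul, Polynomial.map_C, Polynomial.map_pow, Polynomial.map_X]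

/-- **The curves of a uniruled variety.** -/
theorem uniruled_curves (k : Type) [Field k] [NumberField k]
    (P : Fin N → MvPolynomial (Fin (n + 1)) k) (hu : Uniruled (Ideal.span (Set.range P))) :
    ∃ r : ℕ, ∀ G : MvPolynomial (Fin (n + 1)) k, (∃ e, G.IsHomogeneous e) →
      G ∉ Ideal.span (Set.range P) →
      ∃ (K : Type) (_ : Field K) (_ : NumberField K) (_ : Algebra k K)
        (v : Fin r → Fin (n + 1) → K),
        ∀ (L : Type) [Field L] [Algebra k L] (φ : K →ₐ[k] L),
          (∀ (z : L) (i : Fin N), aeval (cpt (fun j a => φ (v j a)) z) (P i) = 0) ∧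
          ∀ S : Set L, S.Infinite → (curvePts G (fun j a => φ (v j a)) S).Infinite := by
  classical
  obtain ⟨L0, _, _, p, hp, hgen, hc⟩ := hu
  obtain ⟨M, hM⟩ : ∃ M : ℕ, ∀ i m, M ≤ m → (p i).coeff m = 0 := by
    refine ⟨∑ i, (p i).natDegree + 1, fun i m hm => Polynomial.coeff_eq_zero_of_natDegree_lt ?_⟩
    have : (p i).natDegree ≤ ∑ i, (p i).natDegree :=
      Finset.single_le_sum (f := fun i => (p i).natDegree) (fun _ _ => Nat.zero_le _)
        (Finset.mem_univ i)
    omega
  refine ⟨M, fun G hG hGI => ?_⟩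
  obtain ⟨K, i1, i2, i3, v, hv1, ⟨j1, j2, hv2⟩, hv3⟩ :=
    Pool.Agent.TH409.SH.specialise (n := n) k L0 p (Set.range P)
      (fun F hF => hp F (Ideal.subset_span hF)) M hM hc G (hgen G hG hGI)
  refine ⟨K, i1, i2, i3, v, fun L _ _ φ => ?_⟩
  have hmap : ∀ F : MvPolynomial (Fin (n + 1)) k,
      (aeval (cur (fun j a => φ (v j a)) (fun j : Fin M => (j : ℕ))) F : Polynomial L) =
        (aeval (cur v (fun j => (j : ℕ))) F : Polynomial K).map (φ : K →+* L) := by
    intro F
    have h0 : cur (fun j a => φ (v j a)) (fun j : Fin M => (j : ℕ)) =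
        fun i => (cur v (fun j => (j : ℕ)) i).map (φ : K →+* L) := by
      funext i
      exact cur_map (φ : K →+* L) v _ i
    rw [h0]
    show _ = Polynomial.mapRingHom (φ : K →+* L) _
    rw [MvPolynomial.aeval_def, MvPolynomial.aeval_def,
      MvPolynomial.hom_eval₂ F _ (Polynomial.mapRingHom (φ : K →+* L)) _]
    congr 1
    refine RingHom.ext fun a => ?_
    rw [RingHom.comp_apply, Polynomial.algebraMap_apply, Polynomial.algebraMap_apply]
    show Polynomial.C _ = Polynomial.map _ (Polynomial.C _)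
    rw [Polynomial.map_C]
    congr 1
    exact (φ.commutes a).symm
  refine ⟨fun z i => ?_, fun S hS => ?_⟩
  · rw [aeval_cpt, hmap, hv1 _ ⟨i, rfl⟩, Polynomial.map_zero, Polynomial.eval_zero]
  · refine curve_inf G _ ⟨j1, j2, ?_⟩ ?_ S hS
    · intro h
      apply hv2
      apply Polynomial.map_injective (φ : K →+* L) (φ : K →+* L).injective
      have e1 : ∀ i, cur (fun j a => φ (v j a)) (fun j : Fin M => (j : ℕ)) i =
          (cur v (fun j => (j : ℕ)) i).map (φ : K →+* L) := cur_map (φ : K →+* L) v _
      rw [e1, e1] at h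
      rw [Polynomial.map_mul, Polynomial.map_mul, Polynomial.map_C, Polynomial.map_C]
      have e2 : ∀ i, Polynomial.eval 1 (Polynomial.map (φ : K →+* L)
          (cur v (fun j : Fin M => (j : ℕ)) i)) =
          (φ : K →+* L) (Polynomial.eval 1 (cur v (fun j => (j : ℕ)) i)) := by
        intro i
        rw [← Polynomial.eval_map_apply, map_one]
      rw [e2, e2] at h
      exact h
    · rw [cpt_eq, aeval_cpt, hmap]
      intro h
      apply hv3
      rw [cpt_eq, aeval_cpt]
      apply (φ : K →+* L).injective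
      rw [map_zero, ← Polynomial.eval_map_apply, map_one]
      exact h

end Pool.Agent.R870
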