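import Mathlib
import Pool.Agent.Y215.SP.Off
import Pool.Agent.Y215.SK.Ht1
import Pool.Agent.R870.Conv

set_option autoImplicit false

/-! # Roots of unity have height zero; the points with roots of unity as multipliers -/

namespace Pool.Agent.R870

open MvPolynomial Pool.Agent.Helper259.AbsHt Pool.Agent.H533R3.SL Pool.Agent.Y215.SP
  Pool.Agent.Y215.SK

variable {n N r : ℕ}

theorem h1_of_pow_eq_one {a : Qbar} {m : ℕ} (hm : 0 < m) (h : a ^ m = 1) : h1 a = 0 := by
  have h2 := h1_pow a m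
  rw [h, h1_one] at h2
  have h3 : (m : ℝ) ≠ 0 := by exact_mod_cast hm.ne'
  exact (mul_eq_zero.1 h2.symm).resolve_left h3

/-- a vector of zeros and roots of unity has height zero -/
theorem height_tors (t : Fin r → Qbar) (ht : ∀ j, t j = 0 ∨ ∃ m : ℕ, 0 < m ∧ t j ^ m = 1) :
    absLogHeight t = 0 := by
  refine le_antisymm ((height_le_sum t).trans ?_) (absLogHeight_nonneg t)
  refine Finset.sum_nonpos fun j _ => ?_
  rcases ht j with h | ⟨m, hm, h⟩
  · rw [h, h1_zero]
  · rw [h1_of_pow_eq_one hm h]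

/-- there are infinitely many roots of unity -/
theorem roots_infinite {L : Type} [Field L] [CharZero L] (ι : Qbar →+* L) :
    {z : L | ∃ m : ℕ, 0 < m ∧ z ^ m = 1}.Infinite := by
  intro hfin
  have h : ∀ m : ℕ, 0 < m → ∃ z : Qbar, IsPrimitiveRoot z m := by
    intro m hm
    have : NeZero (m : Qbar) := ⟨by exact_mod_cast hm.ne'⟩
    exact HasEnoughRootsOfUnity.exists_primitiveRoot Qbar m
  choose! z hz using h
  have hinj : Set.InjOn (fun m : ℕ => ι (z m)) {m | 0 < m} := by
    intro a ha b hb hab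
    have h1 : z a = z b := ι.injective hab
    have h2 := hz a ha
    rw [h1] at h2
    exact h2.unique (hz b hb)
  have h3 : (Set.image (fun m : ℕ => ι (z m)) {m | 0 < m}).Infinite := by
    refine Set.Infinite.image hinj ?_
    exact Set.infinite_of_injective_forall_mem (f := fun m : ℕ => m + 1)
      (fun a b h => by simpa using h) (fun m => Nat.succ_pos m)
  refine h3 (hfin.subset ?_)
  rintro _ ⟨m, hm, rfl⟩
  exact ⟨m, hm, by show ι (z m) ^ m = 1; rw [← map_pow, (hz m hm).pow_eq_one, map_one]⟩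

/-- **Converse for roots of unity.** -/
theorem tors_converse (k : Type) [Field k] [NumberField k]
    (P : Fin N → MvPolynomial (Fin (n + 1)) k) (hu : Uniruled (Ideal.span (Set.range P))) :
    ∃ r : ℕ, ∀ G : MvPolynomial (Fin (n + 1)) k, (∃ e, G.IsHomogeneous e) →
      G ∉ Ideal.span (Set.range P) →
      ∃ (_ : Algebra k Qbar) (v : Fin r → Fin (n + 1) → Qbar), (torsOff P G v).Infinite := by
  obtain ⟨r, hr⟩ := uniruled_curves k P hu
  refine ⟨r, fun G hG hGI => ?_⟩
  obtain ⟨K, _, _, _, v, hv⟩ := hr G hG hGI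
  obtain ⟨φ⟩ : Nonempty (K →+* Qbar) := ⟨(IsAlgClosed.lift : K →ₐ[ℚ] Qbar).toRingHom⟩
  let _ : Algebra k Qbar := (φ.comp (algebraMap k K)).toAlgebra
  let φ' : K →ₐ[k] Qbar := { φ with commutes' := fun _ => rfl }
  obtain ⟨h1, h2⟩ := hv Qbar φ'
  refine ⟨inferInstance, fun j a => φ' (v j a), ?_⟩
  refine (h2 _ (roots_infinite (RingHom.id Qbar))).mono ?_
  rintro p ⟨z, ⟨m, hm, hz⟩, hG, h0, hp⟩
  refine ⟨fun j => z ^ (j : ℕ), fun j => ⟨m, hm, ?_⟩, fun i => h1 z i, hG, h0, hp⟩
  rw [← pow_mul, mul_comm, pow_mul, hz, one_pow]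

end Pool.Agent.R870
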