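import Mathlib
import Pool.Agent.R870.CycDefs
import Pool.Agent.R870.Tors
import Pool.Agent.Helper781.CycHouse.Loxton

set_option autoImplicit false

/-! # Linear combinations with cyclotomic integers of bounded size -/

namespace Pool.Agent.R870

open MvPolynomial Pool.Agent.Helper259.AbsHt Pool.Agent.H533R3.SL Pool.Agent.Y215.SP
  Pool.Agent.Y215.SK Pool.Agent.Helper781.CycHouse

variable {n N r : ℕ}

theorem getD_sum {M : Type} [AddCommMonoid M] (l : List M) (D : ℕ) (h : l.length ≤ D) :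
    ∑ i : Fin D, l.getD i 0 = l.sum := by
  induction l generalizing D with
  | nil => simp
  | cons a l ih =>
    obtain ⟨D, rfl⟩ : ∃ E, D = E + 1 := ⟨D - 1, by simp at h; omega⟩
    rw [Fin.sum_univ_succ, List.sum_cons]
    simp only [Fin.val_zero, Fin.val_succ, List.getD_cons_zero, List.getD_cons_succ]
    rw [ih D (by simpa using h)]

theorem exists_emb (F : Type) [Field F] [CharZero F] [IsAlgClosed F] : Nonempty (Qbar →+* F) := by
  have : Algebra.IsAlgebraic ℚ Qbar := AlgebraicClosure.isAlgebraic ℚ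
  exact ⟨(IsAlgClosed.lift : Qbar →ₐ[ℚ] F).toRingHom⟩

/-- **Loxton's theorem** for cyclotomic integers in a field which contains `Qbar`. -/
theorem cyc_sum (B : ℝ) : ∃ D : ℕ, ∀ (L : Type) [Field L] (ι : Qbar →+* L) (x : L),
    CycInt B x → ∃ w : Fin D → Qbar, (∀ i, w i = 0 ∨ ∃ m : ℕ, 0 < m ∧ w i ^ m = 1) ∧
      x = ∑ i, ι (w i) := by
  obtain ⟨D, hD⟩ := loxton (⌈2 * B⌉₊)
  refine ⟨D, fun L _ ι x hx => ?_⟩
  obtain ⟨m, ζ, f, hm, hζ, hf, rfl⟩ := hx
  have hmean : mean m f ≤ (⌈2 * B⌉₊ : ℝ) / 2 := by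
    have h1 := Nat.le_ceil (2 * B)
    have h2 : mean m f ≤ B := hf
    linarith
  have : NeZero (m : Qbar) := ⟨by exact_mod_cast hm.ne'⟩
  obtain ⟨z0, hz0⟩ : ∃ z : Qbar, IsPrimitiveRoot z m :=
    HasEnoughRootsOfUnity.exists_primitiveRoot Qbar m
  have : NeZero m := ⟨hm.ne'⟩
  obtain ⟨i, -, hi⟩ := (hz0.map_of_injective ι.injective).eq_pow_of_pow_eq_one hζ.pow_eq_one
  have hz1 : IsPrimitiveRoot (z0 ^ i) m := by
    refine IsPrimitiveRoot.of_map_of_injective (f := ι) ?_ ι.injective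
    rw [map_pow, hi]
    exact hζ
  obtain ⟨σ⟩ : Nonempty (Qbar →+* ℂ) := exists_emb ℂ
  obtain ⟨s, hs1, hs2, hs3⟩ := hD m hm f hmean (σ (z0 ^ i)) (hz1.map_of_injective σ.injective)
  rw [← map_aeval_int σ] at hs3
  -- lift the roots of unity
  have hlift : ∀ w : ℂ, (∃ q : ℕ, 0 < q ∧ w ^ q = 1) →
      ∃ w' : Qbar, σ w' = w ∧ ∃ q : ℕ, 0 < q ∧ w' ^ q = 1 := by
    rintro w ⟨q, hq, hw⟩
    have : NeZero (q : Qbar) := ⟨by exact_mod_cast hq.ne'⟩
    obtain ⟨y, hy⟩ : ∃ z : Qbar, IsPrimitiveRoot z q :=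
      HasEnoughRootsOfUnity.exists_primitiveRoot Qbar q
    have : NeZero q := ⟨hq.ne'⟩
    obtain ⟨a, -, ha⟩ := (hy.map_of_injective σ.injective).eq_pow_of_pow_eq_one hw
    refine ⟨y ^ a, by rw [map_pow, ha], q, hq, ?_⟩
    rw [← pow_mul, mul_comm, pow_mul, hy.pow_eq_one, one_pow]
  choose! g hg1 hg2 using hlift
  have hsum : (s.map g).sum = Polynomial.aeval (z0 ^ i) f := by
    apply σ.injective
    rw [map_multiset_sum, Multiset.map_map]
    refine Eq.trans ?_ hs3
    congr 1
    conv_rhs => rw [← Multiset.map_id s]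
    refine Multiset.map_congr rfl fun w hw => ?_
    exact hg1 w (hs2 w hw)
  have hlen : (s.map g).toList.length ≤ D := by
    rw [Multiset.length_toList, Multiset.card_map]
    exact hs1
  refine ⟨fun j => (s.map g).toList.getD j 0, fun j => ?_, ?_⟩
  · by_cases hj : (j : ℕ) < (s.map g).toList.length
    · right
      show ∃ m : ℕ, 0 < m ∧ (s.map g).toList.getD j 0 ^ m = 1
      rw [List.getD_eq_getElem _ _ hj]
      have h1 : (s.map g).toList[(j : ℕ)] ∈ s.map g := by
        rw [← Multiset.mem_toList]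
        exact List.getElem_mem hj
      obtain ⟨w, hw, hw2⟩ := Multiset.mem_map.1 h1
      rw [← hw2]
      exact hg2 w (hs2 w hw)
    · left
      exact List.getD_eq_default _ _ (by omega)
  · rw [← map_sum, getD_sum _ _ hlen, Multiset.sum_toList, hsum]
    have e := map_aeval_int ι (z0 ^ i) f
    rw [map_pow, hi] at e
    exact e.symm

/-- combinations of the `v_j` with cyclotomic integers are combinations with roots of unity -/
theorem cycOff_subset (B : ℝ) : ∃ D : ℕ, ∀ {k L : Type} [Field k] [Field L] [Algebra k L]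
    (ι : Qbar →+* L) (n N r : ℕ) (P : Fin N → MvPolynomial (Fin (n + 1)) k)
    (G : MvPolynomial (Fin (n + 1)) k) (v : Fin r → Fin (n + 1) → L) (ε : ℝ), 0 < ε →
      cycOff P G B v ⊆ smallOff ι P G ε
        (fun j : Fin (r * D) => v (finProdFinEquiv.symm j).1) := by
  obtain ⟨D, hD⟩ := cyc_sum B
  refine ⟨D, ?_⟩
  intro k L _ _ _ ι n N r P G v ε hε
  rintro p ⟨α, hα, h1, h2, h3, h4⟩
  choose w hw1 hw2 using fun j => hD L ι (α j) (hα j)
  have hpt : pt ι (fun j : Fin (r * D) => v (finProdFinEquiv.symm j).1)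
      (fun j => w (finProdFinEquiv.symm j).1 (finProdFinEquiv.symm j).2) =
      fun a => ∑ j, α j * v j a := by
    funext a
    unfold pt
    rw [Equiv.sum_comp finProdFinEquiv.symm
      (fun q : Fin r × Fin D => ι (w q.1 q.2) * v q.1 a), Fintype.sum_prod_type]
    refine Finset.sum_congr rfl fun j _ => ?_
    rw [hw2 j, Finset.sum_mul]
  refine ⟨fun j => w (finProdFinEquiv.symm j).1 (finProdFinEquiv.symm j).2, ?_, ?_, ?_, ?_⟩
  · rw [height_tors _ (fun j => hw1 _ _)]
    exact hε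
  · intro i
    rw [hpt]
    exact h1 i
  · rw [hpt]
    exact h2
  · have h5 : pt ι (fun j : Fin (r * D) => v (finProdFinEquiv.symm j).1)
      (fun j => w (finProdFinEquiv.symm j).1 (finProdFinEquiv.symm j).2) ≠ 0 := by
      rw [hpt]
      exact h3
    exact ⟨h5, h4.trans (mk_congr h3 h5 hpt.symm)⟩

/-- passing to an algebraically closed field -/
theorem cycOff_ext {k L : Type} [Field k] [Field L] [Algebra k L] (L' : Type) [Field L']
    [Algebra k L'] (φ : L →ₐ[k] L')
    (P : Fin N → MvPolynomial (Fin (n + 1)) k) (G : MvPolynomial (Fin (n + 1)) k) (B : ℝ)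
    (v : Fin r → Fin (n + 1) → L) :
    (cycOff P G B v).encard ≤ (cycOff P G B (fun j a => φ (v j a))).encard := by
  classical
  let τ : (Fin (n + 1) → L) →ₛₗ[(φ : L →+* L')] (Fin (n + 1) → L') :=
    { toFun := fun x a => φ (x a)
      map_add' := fun x y => by funext a; simp
      map_smul' := fun c x => by funext a; simp }
  have hτ : Function.Injective τ := by
    intro x y hxy
    funext a
    exact φ.injective (congrFun hxy a)
  have hev : ∀ (F : MvPolynomial (Fin (n + 1)) k) (x : Fin (n + 1) → L),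
      aeval (fun a => φ (x a)) F = φ (aeval x F) := by
    intro F x
    rw [← MvPolynomial.comp_aeval_apply]
  refine le_trans ?_ (Set.encard_le_encard (s := Projectivization.map τ hτ '' cycOff P G B v) ?_)
  · rw [Function.Injective.encard_image]
    intro p q hpq
    induction p using Projectivization.ind with | h x hx =>
    induction q using Projectivization.ind with | h y hy =>
    rw [Projectivization.map_mk, Projectivization.map_mk, Projectivization.mk_eq_mk_iff'] at hpq
    obtain ⟨c, hc⟩ := hpq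
    obtain ⟨a0, ha0⟩ := Function.ne_iff.1 hy
    have ha0' : y a0 ≠ 0 := ha0
    have h1 : ∀ a, c * φ (y a) = φ (x a) := fun a => congrFun hc a
    have h2 : c = φ (x a0 / y a0) := by
      rw [map_div₀, ← h1 a0, mul_div_cancel_right₀]
      exact (map_ne_zero φ).2 ha0'
    rw [Projectivization.mk_eq_mk_iff']
    refine ⟨x a0 / y a0, ?_⟩
    funext a
    have e : φ (x a0 / y a0 * y a) = φ (x a) := by rw [map_mul, ← h2, h1]
    exact φ.injective e
  · rintro _ ⟨p, ⟨α, hα, h1, h2, h3, rfl⟩, rfl⟩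
    have hcoord : (fun a => ∑ j, φ (α j) * φ (v j a)) = fun a => φ (∑ j, α j * v j a) := by
      funext a
      rw [map_sum]
      exact Finset.sum_congr rfl fun j _ => (map_mul _ _ _).symm
    refine ⟨fun j => φ (α j), fun j => ?_, ?_, ?_, ?_⟩
    · obtain ⟨m, ζ, f, hm, hζ, hf, hx⟩ := hα j
      refine ⟨m, φ ζ, f, hm, hζ.map_of_injective φ.injective, hf, ?_⟩
      show _ = φ (α j)
      rw [← hx]
      exact (map_aeval_int (φ : L →+* L') ζ f).symm
    · intro i
      rw [hcoord, hev, h1, map_zero]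
    · rw [hcoord, hev]
      exact (map_ne_zero φ).2 h2
    · have h5 : (fun a => ∑ j, φ (α j) * φ (v j a)) ≠ 0 := by
        rw [hcoord]
        intro h
        apply h3
        funext a
        exact (map_eq_zero φ).1 (congrFun h a)
      refine ⟨h5, ?_⟩
      rw [Projectivization.map_mk]
      exact mk_congr _ h5 hcoord.symm

/-- **Uniform bound for the points with cyclotomic multipliers.** -/
theorem cyc_bound (d r : ℕ) (B : ℝ) : ∃ M : ℕ, ∀ (k : Type) [Field k] [CharZero k] (n N : ℕ)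
    (P : Fin N → MvPolynomial (Fin (n + 1)) k), (∀ i, ∃ e, e ≤ d ∧ (P i).IsHomogeneous e) →
    (Ideal.span (Set.range P)).IsPrime → ¬ Uniruled (Ideal.span (Set.range P)) →
    ∃ G : MvPolynomial (Fin (n + 1)) k, (∃ e, G.IsHomogeneous e) ∧
      G ∉ Ideal.span (Set.range P) ∧
      ∀ (L : Type) [Field L] [Algebra k L] (v : Fin r → Fin (n + 1) → L),
        (cycOff P G B v).encard ≤ M := by
  obtain ⟨D, hD⟩ := cycOff_subset B
  refine ⟨2 ^ (r * D) * M0 ((d + 1 + 1) ^ (r * D)) (d + 1) (r * D),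
    fun k _ _ n N P hP hprime hnu => ?_⟩
  obtain ⟨G, h1, h2, h3⟩ := small_multipliers P (d + 1) (by omega)
    (fun i => (hP i).imp fun e he => ⟨he.1.trans (Nat.le_succ d), he.2⟩) hprime hnu (r * D)
  refine ⟨G, h1, h2, fun L _ _ v => ?_⟩
  have : CharZero L := charZero_of_injective_algebraMap (algebraMap k L).injective
  let φ : L →ₐ[k] AlgebraicClosure L := IsScalarTower.toAlgHom k L (AlgebraicClosure L)
  have : CharZero (AlgebraicClosure L) :=
    charZero_of_injective_algebraMap (algebraMap L (AlgebraicClosure L)).injective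
  obtain ⟨ι⟩ : Nonempty (Qbar →+* AlgebraicClosure L) := exists_emb _
  refine (cycOff_ext (AlgebraicClosure L) φ P G B v).trans ?_
  refine (Set.encard_le_encard (hD ι n N r P G _ (epsn ((d + 1 + 1) ^ (r * D)) / (d + 1 : ℕ))
    ?_)).trans (h3 _ ι _)
  exact div_pos (epsn_pos _ (Nat.one_le_pow _ _ (by omega))) (by positivity)

/-- **Converse.** -/
theorem cyc_converse (k : Type) [Field k] [NumberField k]
    (P : Fin N → MvPolynomial (Fin (n + 1)) k) (hu : Uniruled (Ideal.span (Set.range P))) :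
    ∃ r : ℕ, ∀ G : MvPolynomial (Fin (n + 1)) k, (∃ e, G.IsHomogeneous e) →
      G ∉ Ideal.span (Set.range P) →
      ∃ (_ : Algebra k Qbar) (v : Fin r → Fin (n + 1) → Qbar), (cycOff P G 1 v).Infinite := by
  obtain ⟨r, hr⟩ := tors_converse k P hu
  refine ⟨r, fun G hG hGI => ?_⟩
  obtain ⟨i1, v, hv⟩ := hr G hG hGI
  refine ⟨i1, v, hv.mono ?_⟩
  rintro p ⟨ζ, hζ, h1, h2, h3, h4⟩
  refine ⟨ζ, fun j => ?_, h1, h2, h3, h4⟩
  obtain ⟨m, hm, hz⟩ := hζ j
  have h5 : 0 < orderOf (ζ j) := orderOf_pos_iff.2 (isOfFinOrder_iff_pow_eq_one.2 ⟨m, hm, hz⟩)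
  refine ⟨orderOf (ζ j), ζ j, Polynomial.X, h5, IsPrimitiveRoot.orderOf _, ?_,
    Polynomial.aeval_X _⟩
  have h6 : (∑ z ∈ primitiveRoots (orderOf (ζ j)) ℂ,
      ‖Polynomial.aeval z (Polynomial.X : Polynomial ℤ)‖ ^ 2) =
      ((orderOf (ζ j)).totient : ℝ) := by
    rw [Finset.sum_congr rfl (g := fun _ => (1 : ℝ)), Finset.sum_const, Complex.card_primitiveRoots,
      nsmul_eq_mul, mul_one]
    intro z hz
    rw [mem_primitiveRoots h5] at hz
    rw [Polynomial.aeval_X, hz.norm'_eq_one h5.ne', one_pow]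
  rw [h6, div_self]
  exact_mod_cast (Nat.totient_pos.2 h5).ne'

end Pool.Agent.R870
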