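import Mathlib

set_option autoImplicit false

/-! # Linear recurrence sequences of points: definitions -/

namespace Pool.Agent.R870

open MvPolynomial

variable {n N r : ℕ}

/-- the term `M A ^ m v` of the linear recurrence sequence of vectors given by the square matrix
`A`, the matrix `M` with `n + 1` rows and the vector `v` -/
def term {K : Type} [Field K] (M : Matrix (Fin (n + 1)) (Fin r) K) (A : Matrix (Fin r) (Fin r) K)
    (v : Fin r → K) (m : ℕ) : Fin (n + 1) → K := M.mulVec ((A ^ m).mulVec v)

/-- the points of projective space over `K` with homogeneous coordinates `M A ^ m v`, for some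
`m ≥ 0`, which are zeros of the `P_i` and not of `G` -/
def termsOff {k K : Type} [Field k] [Field K] [Algebra k K]
    (P : Fin N → MvPolynomial (Fin (n + 1)) k) (G : MvPolynomial (Fin (n + 1)) k)
    (M : Matrix (Fin (n + 1)) (Fin r) K) (A : Matrix (Fin r) (Fin r) K)
    (v : Fin r → K) : Set (Projectivization K (Fin (n + 1) → K)) :=
  {p | ∃ m : ℕ, (∀ i, aeval (term M A v m) (P i) = 0) ∧ aeval (term M A v m) G ≠ 0 ∧
    ∃ h : term M A v m ≠ 0, p = Projectivization.mk K (term M A v m) h}

end Pool.Agent.R870
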