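import Mathlib

set_option autoImplicit false

/-! # The powers of a matrix over an algebraically closed field -/

namespace Pool.Agent.R870

open Module

variable {F : Type} [Field F] [CharZero F]

/-- the powers on a generalized eigenvector -/
theorem pow_gen {V : Type} [AddCommGroup V] [Module F V] (f : End F V) (μ : F) (hμ : μ ≠ 0)
    (r : ℕ) (x : V) (hx : ((f - μ • (1 : End F V)) ^ r) x = 0) :
    ∃ W : Fin r → V, ∀ m : ℕ, r ≤ m →
      (f ^ m) x = ∑ l : Fin r, (μ ^ m * (m : F) ^ (l : ℕ)) • W l := by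
  set g : End F V := f - μ • (1 : End F V) with hg
  have hz : ∀ b, r ≤ b → (g ^ b) x = 0 := by
    intro b hb
    obtain ⟨t, rfl⟩ := Nat.exists_eq_add_of_le hb
    rw [add_comm, pow_add, Module.End.mul_apply, hx, map_zero]
  refine ⟨fun l => ∑ b ∈ Finset.range r,
    ((descPochhammer F b).coeff l / (b.factorial : F) * (μ ^ b)⁻¹) • (g ^ b) x, fun m hm => ?_⟩
  have hf : f = μ • (1 : End F V) + g := by rw [hg]; abel
  have hcomm : Commute g (μ • (1 : End F V)) := (Commute.one_right g).smul_right μ
  have h1 : (f ^ m) x = ∑ b ∈ Finset.range (m + 1),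
      ((m.choose b : F) * μ ^ (m - b)) • (g ^ b) x := by
    rw [hf, add_comm, hcomm.add_pow, LinearMap.sum_apply]
    refine Finset.sum_congr rfl fun b _ => ?_
    rw [Module.End.mul_apply, Module.End.mul_apply]
    have e1 : ((m.choose b : End F V)) x = (m.choose b : F) • x := by
      rw [Module.End.natCast_apply, Nat.cast_smul_eq_nsmul]
    rw [e1, smul_pow, one_pow, map_smul, LinearMap.smul_apply, Module.End.one_apply, map_smul,
      map_smul, smul_smul]
  have h2 : (f ^ m) x = ∑ b ∈ Finset.range r,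
      ((m.choose b : F) * μ ^ (m - b)) • (g ^ b) x := by
    rw [h1]
    symm
    refine Finset.sum_subset (Finset.range_subset_range.2 (by omega)) fun b _ hb => ?_
    rw [hz b (by simpa using hb), smul_zero]
  rw [h2]
  have h3 : ∀ b ∈ Finset.range r, ((m.choose b : F) * μ ^ (m - b)) • (g ^ b) x =
      ∑ l : Fin r, (μ ^ m * (m : F) ^ (l : ℕ)) •
        (((descPochhammer F b).coeff l / (b.factorial : F) * (μ ^ b)⁻¹) • (g ^ b) x) := by
    intro b hb
    rw [Finset.mem_range] at hb
    have e1 : (m.choose b : F) = ∑ l : Fin r, (descPochhammer F b).coeff l * (m : F) ^ (l : ℕ) /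
        (b.factorial : F) := by
      rw [Nat.cast_choose_eq_descPochhammer_div, Polynomial.eval_eq_sum_range' (n := r)
        (by rw [descPochhammer_natDegree]; exact hb), Finset.sum_div, Finset.sum_range]
    have e2 : μ ^ (m - b) = μ ^ m * (μ ^ b)⁻¹ := by
      rw [pow_sub₀ _ hμ (by omega)]
    rw [e1, e2, Finset.sum_mul, Finset.sum_smul]
    refine Finset.sum_congr rfl fun l _ => ?_
    rw [smul_smul]
    congr 1
    ring
  rw [Finset.sum_congr rfl h3, Finset.sum_comm]
  refine Finset.sum_congr rfl fun l _ => ?_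
  rw [Finset.smul_sum]

omit [CharZero F] in
/-- the powers on a generalized eigenvector for the eigenvalue zero -/
theorem pow_gen_zero {V : Type} [AddCommGroup V] [Module F V] (f : End F V)
    (r : ℕ) (x : V) (hx : ((f - (0 : F) • (1 : End F V)) ^ r) x = 0) (m : ℕ) (hm : r ≤ m) :
    (f ^ m) x = 0 := by
  rw [zero_smul, sub_zero] at hx
  obtain ⟨t, rfl⟩ := Nat.exists_eq_add_of_le hm
  rw [add_comm, pow_add, Module.End.mul_apply, hx, map_zero]

/-- **Closed form for the powers of an endomorphism.** -/
theorem closed_form [IsAlgClosed F] {V : Type} [AddCommGroup V] [Module F V]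
    [FiniteDimensional F V] (f : End F V) (v : V) (r : ℕ) (hr : finrank F V = r) :
    ∃ (α : Fin r → Fˣ) (W : Fin r → Fin r → V), ∀ m : ℕ, r ≤ m →
      (f ^ m) v = ∑ j : Fin r, ∑ l : Fin r, ((α j : F) ^ m * (m : F) ^ (l : ℕ)) • W j l := by
  classical
  have hv : v ∈ ⨆ μ : F, f.maxGenEigenspace μ := by
    rw [Module.End.iSup_maxGenEigenspace_eq_top]
    exact Submodule.mem_top
  rw [Submodule.mem_iSup_iff_exists_finsupp] at hv
  obtain ⟨g, hg1, hg2⟩ := hv
  have hgr : ∀ μ, ((f - μ • (1 : End F V)) ^ r) (g μ) = 0 := by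
    intro μ
    have h := hg1 μ
    rw [Module.End.maxGenEigenspace_eq_genEigenspace_finrank, hr,
      Module.End.mem_genEigenspace_nat] at h
    exact h
  -- the support
  let S : Finset F := g.support.erase 0
  have hcard : Fintype.card S ≤ r := by
    have hind : LinearIndependent F (fun μ : g.support => g (μ : F)) := by
      refine ((Module.End.independent_maxGenEigenspace f).comp
        (Subtype.val_injective (p := fun μ => μ ∈ g.support))).linearIndependent _
        (fun μ => hg1 μ) (fun μ => Finsupp.mem_support_iff.1 μ.2)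
    have h1 := hind.fintype_card_le_finrank
    rw [Fintype.card_coe, hr] at h1
    rw [Fintype.card_coe]
    exact (Finset.card_erase_le).trans h1
  obtain ⟨e⟩ : Nonempty (S ↪ Fin r) := by
    refine Function.Embedding.nonempty_of_card_le ?_
    rw [Fintype.card_fin]
    exact hcard
  have hS0 : ∀ μ : S, (μ : F) ≠ 0 := fun μ => Finset.ne_of_mem_erase μ.2
  choose W hW using fun μ : S => pow_gen f (μ : F) (hS0 μ) r (g μ) (hgr μ)
  refine ⟨Function.extend e (fun μ => Units.mk0 (μ : F) (hS0 μ)) 1, Function.extend e W 0,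
    fun m hm => ?_⟩
  rw [← hg2, Finsupp.sum, map_sum]
  have h1 : ∑ μ ∈ g.support, (f ^ m) (g μ) = ∑ μ ∈ S, (f ^ m) (g μ) := by
    symm
    refine Finset.sum_subset (Finset.erase_subset _ _) fun μ hμ hμ2 => ?_
    have h0 : μ = 0 := by
      by_contra h
      exact hμ2 (Finset.mem_erase.2 ⟨h, hμ⟩)
    subst h0
    exact pow_gen_zero f r _ (hgr 0) m hm
  rw [h1, ← Finset.sum_coe_sort S]
  refine Fintype.sum_of_injective e e.injective _ _ (fun j hj => ?_) (fun μ => ?_)
  · refine Finset.sum_eq_zero fun l _ => ?_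
    have hj' : ¬ ∃ a, e a = j := hj
    have h2 : Function.extend e W 0 j l = 0 := by
      rw [Function.extend_apply' _ _ _ hj']
      rfl
    rw [h2, smul_zero]
  · rw [hW μ m hm, e.injective.extend_apply, e.injective.extend_apply]
    rfl

end Pool.Agent.R870
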