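import Mathlib
import Pool.Agent.Y215.SK.FinC
import Pool.Agent.R870.Conv

set_option autoImplicit false

/-! # Exponential polynomials with values on a variety -/

namespace Pool.Agent.R870

open MvPolynomial Pool.Agent.Helper259.AbsHt Pool.Agent.H533R3.SL Pool.Agent.Y215.SK
  Pool.Agent.Y215.SP Height Module

variable {n N s : ℕ}

theorem h1_nat (m : ℕ) (hm : 1 ≤ m) : h1 (m : Qbar) = Real.log m := by
  have : NeZero m := ⟨by omega⟩
  have h := h1_eq ℚ (algebraMap ℚ Qbar) (m : ℚ)
  rw [Rat.logHeight₁_natCast, finrank_self, Nat.cast_one, div_one, map_natCast] at h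
  exact h

/-- the vectors `m ^ (l_j) w_j` -/
noncomputable def tm (l : Fin s → ℕ) (w : Fin s → Fin (n + 1) → Qbar) (m : ℕ) :
    Fin s → Fin (n + 1) → Qbar := fun j a => (m : Qbar) ^ (l j) * w j a

theorem tm_height (l : Fin s → ℕ) (w : Fin s → Fin (n + 1) → Qbar) :
    ∃ C : ℝ, 0 ≤ C ∧ ∀ m : ℕ, 1 ≤ m → hV (tm l w m) ≤ C * (1 + Real.log m) := by
  classical
  have hw0 : 0 ≤ hV w := absLogHeight_nonneg _
  have hl0 : (0 : ℝ) ≤ ∑ j, (l j : ℝ) := Finset.sum_nonneg fun j _ => Nat.cast_nonneg _
  refine ⟨∑ j, (l j : ℝ) + hV w, by linarith, fun m hm => ?_⟩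
  have hlog : 0 ≤ Real.log m := Real.log_nonneg (by exact_mod_cast hm)
  by_cases h0 : (fun p : Fin s × Fin (n + 1) => w p.1 p.2) = 0
  · have h2 : (fun p : Fin s × Fin (n + 1) => tm l w m p.1 p.2) = 0 := by
      funext p
      show (m : Qbar) ^ (l p.1) * w p.1 p.2 = 0
      rw [show w p.1 p.2 = 0 from congrFun h0 p, mul_zero]
    unfold hV
    rw [h2, absLogHeight_zero]
    exact mul_nonneg (add_nonneg hl0 hw0) (by linarith)
  · have hs : Nonempty (Fin s) := by
      by_contra h
      rw [not_nonempty_iff] at h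
      apply h0
      funext p
      exact (h.false p.1).elim
    have hx0 : (fun j : Fin s => (m : Qbar) ^ (l j)) ≠ 0 := by
      obtain ⟨j⟩ := hs
      intro h
      have h3 := congrFun h j
      exact pow_ne_zero _ (by exact_mod_cast (by omega : m ≠ 0)) h3
    have h1' := height_mul_le (fun j : Fin s => (m : Qbar) ^ (l j))
      (fun p : Fin s × Fin (n + 1) => w p.1 p.2) hx0 h0 (τ := Fin s × Fin (n + 1))
      (fun p => p.1) (fun p => p)
    have h2 : absLogHeight (fun j : Fin s => (m : Qbar) ^ (l j)) ≤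
        (∑ j, (l j : ℝ)) * Real.log m := by
      refine (height_le_sum _).trans ?_
      rw [Finset.sum_mul]
      refine Finset.sum_le_sum fun j _ => ?_
      rw [h1_pow, h1_nat m hm]
    have h3 : hV (tm l w m) ≤ (∑ j, (l j : ℝ)) * Real.log m + hV w :=
      h1'.trans (by unfold hV; linarith)
    have h4 : 0 ≤ hV w * Real.log m := mul_nonneg hw0 hlog
    nlinarith

/-- Kronecker's theorem. -/
theorem kron (β : Qbarˣ) (h : h1 (β : Qbar) = 0) : ∃ q : ℕ, 0 < q ∧ β ^ q = 1 := by
  classical
  obtain ⟨L, hL, hmem⟩ := exists_nf {(β : Qbar)} (Set.finite_singleton _)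
  let b : L := ⟨(β : Qbar), hmem _ rfl⟩
  have hfin := Northcott.finite_le (h := fun x : L => logHeight₁ x) 0
  have hpos : (0 : ℝ) < finrank ℚ L := by exact_mod_cast Module.finrank_pos
  have hb : ∀ m : ℕ, logHeight₁ (b ^ m) ≤ 0 := by
    intro m
    have h2 := h1_val L (b ^ m)
    have h3 : ((b ^ m : L) : Qbar) = (β : Qbar) ^ m := by
      push_cast
      rfl
    rw [h3, h1_pow, h, mul_zero, eq_comm, div_eq_zero_iff] at h2
    rcases h2 with h2 | h2
    · exact h2.le
    · exact absurd h2 hpos.ne'
  by_contra hno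
  push Not at hno
  have hinj : Function.Injective fun m : ℕ => b ^ m := by
    intro m m' hmm
    have hmm : b ^ m = b ^ m' := hmm
    by_contra hne
    have hb0 : b ≠ 0 := by
      intro h
      exact β.ne_zero (congrArg (fun x : L => (x : Qbar)) h)
    have key : ∀ m m' : ℕ, m < m' → b ^ m ≠ b ^ m' := by
      intro m m' hlt heq
      apply hno (m' - m) (by omega)
      have h2 : b ^ (m' - m) = 1 := by
        have h3 : b ^ m * b ^ (m' - m) = b ^ m * 1 := by
          rw [← pow_add, mul_one, heq]
          congr 1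
          omega
        exact mul_left_cancel₀ (pow_ne_zero _ hb0) h3
      apply Units.ext
      have h4 := congrArg (fun x : L => (x : Qbar)) h2
      rw [Units.val_pow_eq_pow_val, Units.val_one]
      simpa using h4
    rcases lt_or_gt_of_ne hne with h2 | h2
    · exact key _ _ h2 hmm
    · exact key _ _ h2 hmm.symm
  exact (Set.infinite_range_of_injective hinj) (hfin.subset (by
    rintro _ ⟨m, rfl⟩
    exact hb m))

theorem cur_eval {L : Type} [Field L] (c : Fin s → Fin (n + 1) → L) (l : Fin s → ℕ) (z : L)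
    (a : Fin (n + 1)) : (cur c l a).eval z = ∑ j, z ^ (l j) * c j a := by
  show (∑ j : Fin s, Polynomial.C (c j a) * Polynomial.X ^ (l j)).eval z = _
  rw [Polynomial.eval_finsetSum]
  refine Finset.sum_congr rfl fun j _ => ?_
  rw [Polynomial.eval_mul, Polynomial.eval_C, Polynomial.eval_pow, Polynomial.eval_X, mul_comm]

theorem aeval_cur {k L : Type} [Field k] [Field L] [Algebra k L]
    (c : Fin s → Fin (n + 1) → L) (l : Fin s → ℕ) (z : L) (F : MvPolynomial (Fin (n + 1)) k) :
    aeval (fun a => ∑ j, z ^ (l j) * c j a) F = (aeval (cur c l) F : Polynomial L).eval z := by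
  have h0 : (fun a => ∑ j, z ^ (l j) * c j a) = fun a => (cur c l a).eval z := by
    funext a
    rw [cur_eval]
  rw [h0]
  have h1 : (aeval (cur c l) F : Polynomial L).eval z =
      MvPolynomial.eval₂ ((Polynomial.evalRingHom z).comp (algebraMap k (Polynomial L)))
        (fun i => Polynomial.evalRingHom z (cur c l i)) F := by
    rw [MvPolynomial.aeval_def]
    exact MvPolynomial.hom_eval₂ F _ (Polynomial.evalRingHom z) _
  rw [h1, MvPolynomial.aeval_def]
  congr 1
  refine RingHom.ext fun a => ?_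
  show _ = Polynomial.eval z (algebraMap k (Polynomial L) a)
  rw [Polynomial.algebraMap_apply]
  show _ = Polynomial.eval z (Polynomial.C _)
  rw [Polynomial.eval_C]

/-- a polynomial curve has finitely many points with parameters in `ℕ` on `P = 0` and off
`G = 0` -/
theorem poly_curve {k : Type} [Field k] [Algebra k Qbar]
    (P : Fin N → MvPolynomial (Fin (n + 1)) k) (G : MvPolynomial (Fin (n + 1)) k)
    (hG : ∀ (L : Type) [Field L] [Algebra k L] (c : Fin s → Fin (n + 1) → L) (l : Fin s → ℕ),
        (∀ i, MvPolynomial.aeval (cur c l) (P i) = 0) →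
        (∃ i i', cur c l i * Polynomial.C (∑ j, c j i') ≠
          cur c l i' * Polynomial.C (∑ j, c j i)) →
        MvPolynomial.aeval (fun i => ∑ j, c j i) G = 0)
    (c : Fin s → Fin (n + 1) → Qbar) (l : Fin s → ℕ) :
    {p : Projectivization Qbar (Fin (n + 1) → Qbar) | ∃ m : ℕ,
      OnOff P G (fun a => ∑ j, (m : Qbar) ^ (l j) * c j a) ∧
      ∃ h : (fun a => ∑ j, (m : Qbar) ^ (l j) * c j a) ≠ 0,
        p = Projectivization.mk Qbar _ h}.Finite := by
  classical
  set T : Set ℕ := {m : ℕ | OnOff P G (fun a => ∑ j, (m : Qbar) ^ (l j) * c j a)} with hT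
  by_cases hfin : T.Finite
  · refine (hfin.biUnion (t := fun m => {p : Projectivization Qbar (Fin (n + 1) → Qbar) |
      ∃ h : (fun a => ∑ j, (m : Qbar) ^ (l j) * c j a) ≠ 0,
        p = Projectivization.mk Qbar _ h}) fun m _ => ?_).subset ?_
    · refine Set.Subsingleton.finite ?_
      rintro p ⟨h1, rfl⟩ q ⟨h2, rfl⟩
      rfl
    · rintro p ⟨m, hm, h, hp⟩
      rw [Set.mem_iUnion₂]
      exact ⟨m, hm, h, hp⟩
  · have hinf : T.Infinite := hfin
    have hzero : ∀ i, (aeval (cur c l) (P i) : Polynomial Qbar) = 0 := by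
      intro i
      by_contra hne
      refine hinf ((Polynomial.finite_setOfPred_isRoot hne).preimage
        (f := fun m : ℕ => (m : Qbar)) (Nat.cast_injective.injOn) |>.subset ?_)
      intro m hm
      show (aeval (cur c l) (P i) : Polynomial Qbar).eval (m : Qbar) = 0
      rw [← aeval_cur]
      exact hm.2.1 i
    obtain ⟨m1, hm1T, hm1⟩ : ∃ m ∈ T, m ≠ 0 := by
      obtain ⟨m, hm, hm2⟩ := hinf.exists_notMem_finite (Set.finite_singleton 0)
      exact ⟨m, hm, hm2⟩
    have hm1' : (m1 : Qbar) ≠ 0 := by exact_mod_cast hm1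
    -- the curve through the point with parameter `m1`
    have hcomp : ∀ a, cur (fun j a => (m1 : Qbar) ^ (l j) * c j a) l a =
        (cur c l a).comp (Polynomial.C (m1 : Qbar) * Polynomial.X) := by
      intro a
      unfold cur
      rw [Polynomial.sum_comp]
      refine Finset.sum_congr rfl fun j _ => ?_
      rw [Polynomial.mul_comp, Polynomial.C_comp, Polynomial.pow_comp, Polynomial.X_comp,
        mul_pow, Polynomial.C_mul, Polynomial.C_pow]
      ring
    have hz' : ∀ i, (aeval (cur (fun j a => (m1 : Qbar) ^ (l j) * c j a) l) (P i) :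
        Polynomial Qbar) = 0 := by
      intro i
      have h1 : (aeval (cur (fun j a => (m1 : Qbar) ^ (l j) * c j a) l) (P i) :
          Polynomial Qbar) = (aeval (cur c l) (P i) : Polynomial Qbar).comp
            (Polynomial.C (m1 : Qbar) * Polynomial.X) := by
        rw [show cur (fun j a => (m1 : Qbar) ^ (l j) * c j a) l = fun a =>
          (cur c l a).comp (Polynomial.C (m1 : Qbar) * Polynomial.X) from funext hcomp]
        rw [← Polynomial.coe_compRingHom_apply, MvPolynomial.aeval_def, MvPolynomial.aeval_def,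
          MvPolynomial.hom_eval₂ (P i) _ (Polynomial.compRingHom _) _]
        congr 1
        refine RingHom.ext fun a => ?_
        rw [RingHom.comp_apply, Polynomial.algebraMap_apply, Polynomial.coe_compRingHom_apply]
        show Polynomial.C _ = (Polynomial.C _).comp _
        rw [Polynomial.C_comp]
      rw [h1, hzero, Polynomial.zero_comp]
    have hconst : ∀ i i', cur (fun j a => (m1 : Qbar) ^ (l j) * c j a) l i *
        Polynomial.C (∑ j, (m1 : Qbar) ^ (l j) * c j i') =
        cur (fun j a => (m1 : Qbar) ^ (l j) * c j a) l i' *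
          Polynomial.C (∑ j, (m1 : Qbar) ^ (l j) * c j i) := by
      by_contra hne
      push Not at hne
      exact hm1T.2.2 (hG Qbar _ l hz' hne)
    refine Set.Subsingleton.finite ?_
    have hone : ∀ p ∈ {p : Projectivization Qbar (Fin (n + 1) → Qbar) | ∃ m : ℕ,
        OnOff P G (fun a => ∑ j, (m : Qbar) ^ (l j) * c j a) ∧
        ∃ h : (fun a => ∑ j, (m : Qbar) ^ (l j) * c j a) ≠ 0,
          p = Projectivization.mk Qbar _ h}, p = Projectivization.mk Qbar _ hm1T.1 := by
      rintro p ⟨m, hm, h, rfl⟩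
      have hprop : ∀ i i', (∑ j, (m : Qbar) ^ (l j) * c j i) *
          (∑ j, (m1 : Qbar) ^ (l j) * c j i') =
          (∑ j, (m : Qbar) ^ (l j) * c j i') * (∑ j, (m1 : Qbar) ^ (l j) * c j i) := by
        intro i i'
        have h2 := congrArg (Polynomial.eval ((m : Qbar) / m1)) (hconst i i')
        rw [Polynomial.eval_mul, Polynomial.eval_mul, Polynomial.eval_C, Polynomial.eval_C,
          cur_eval, cur_eval] at h2
        have e : ∀ i, ∑ j, ((m : Qbar) / m1) ^ (l j) * ((m1 : Qbar) ^ (l j) * c j i) =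
            ∑ j, (m : Qbar) ^ (l j) * c j i := by
          intro i
          refine Finset.sum_congr rfl fun j _ => ?_
          rw [← mul_assoc, ← mul_pow, div_mul_cancel₀ _ hm1']
        rw [e, e] at h2
        exact h2
      obtain ⟨a0, ha0⟩ := Function.ne_iff.1 hm1T.1
      have ha0' : (∑ j, (m1 : Qbar) ^ (l j) * c j a0) ≠ 0 := ha0
      rw [Projectivization.mk_eq_mk_iff']
      refine ⟨(∑ j, (m : Qbar) ^ (l j) * c j a0) / (∑ j, (m1 : Qbar) ^ (l j) * c j a0), ?_⟩
      funext a
      rw [Pi.smul_apply, smul_eq_mul, div_mul_eq_mul_div, div_eq_iff ha0']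
      exact hprop a0 a
    intro p hp q hq
    rw [hone p hp, hone q hq]

end Pool.Agent.R870
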