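import Mathlib
import Pool.Agent.R870.Rec

set_option autoImplicit false

/-! # Exponential polynomials with values on a variety: finiteness -/

namespace Pool.Agent.R870

open MvPolynomial Pool.Agent.Helper259.AbsHt Pool.Agent.H533R3.SL Pool.Agent.Y215.SK
  Pool.Agent.Y215.SP Height Module Filter

variable {n N s : ℕ}

theorem growth (A B h : ℝ) (hh : 0 < h) : ∀ᶠ m : ℕ in atTop, A + B * Real.log m < m * h := by
  have h1 : (fun x : ℝ => B * Real.log x + A) =o[atTop] (id : ℝ → ℝ) :=
    (Real.isLittleO_log_id_atTop.const_mul_left B).add (Asymptotics.isLittleO_const_id_atTop A)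
  have h2 := (h1.comp_tendsto (tendsto_natCast_atTop_atTop (R := ℝ))).def (half_pos hh)
  filter_upwards [h2, eventually_ge_atTop 1] with m hm hm1
  simp only [Function.comp_apply, id_eq, Real.norm_eq_abs, Nat.abs_cast] at hm
  have h3 := le_abs_self (B * Real.log m + A)
  have h4 : (1 : ℝ) ≤ m := by exact_mod_cast hm1
  nlinarith

/-- the value at `m` of an exponential polynomial -/
noncomputable def epv (α : Fin s → Qbarˣ) (l : Fin s → ℕ) (w : Fin s → Fin (n + 1) → Qbar)
    (m : ℕ) : Fin (n + 1) → Qbar :=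
  fun a => ∑ j, ((α j : Qbar) ^ m) * ((m : Qbar) ^ (l j) * w j a)

theorem epv_eq (α : Fin s → Qbarˣ) (l : Fin s → ℕ) (w : Fin s → Fin (n + 1) → Qbar) (m : ℕ) :
    epv α l w m = psum Finset.univ (fun j => α j ^ m) (tm l w m) := by
  funext a
  unfold epv Pool.Agent.Y215.SK.psum tm
  refine Finset.sum_congr rfl fun j _ => ?_
  rw [Units.val_pow_eq_pow_val]

/-- **Finiteness for exponential polynomials.** -/
theorem ep_finite {k : Type} [Field k] [Algebra k Qbar]
    (P : Fin N → MvPolynomial (Fin (n + 1)) k) (hP : ∀ i, ∃ e, (P i).IsHomogeneous e)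
    (G : MvPolynomial (Fin (n + 1)) k) (hGh : ∃ e, G.IsHomogeneous e)
    (hG : ∀ (L : Type) [Field L] [Algebra k L] (c : Fin s → Fin (n + 1) → L) (l : Fin s → ℕ),
        (∀ i, MvPolynomial.aeval (cur c l) (P i) = 0) →
        (∃ i i', cur c l i * Polynomial.C (∑ j, c j i') ≠
          cur c l i' * Polynomial.C (∑ j, c j i)) →
        MvPolynomial.aeval (fun i => ∑ j, c j i) G = 0)
    (α : Fin s → Qbarˣ) (l : Fin s → ℕ) (w : Fin s → Fin (n + 1) → Qbar) :
    {p : Projectivization Qbar (Fin (n + 1) → Qbar) | ∃ m : ℕ, OnOff P G (epv α l w m) ∧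
      ∃ h : epv α l w m ≠ 0, p = Projectivization.mk Qbar (epv α l w m) h}.Finite := by
  classical
  set Γ : Subgroup Qbarˣ := Subgroup.closure (Set.range α) with hΓ
  have hΓfg : Γ.FG := ⟨(Set.finite_range α).toFinset, by rw [Set.Finite.coe_toFinset]⟩
  have hαΓ : ∀ j, α j ∈ Γ := fun j => Subgroup.subset_closure ⟨j, rfl⟩
  obtain ⟨C, hC⟩ := mult_bound P hP G hGh hG Γ hΓfg
  obtain ⟨D, hD0, hD⟩ := tm_height l w
  -- large parameters
  have hev : ∀ᶠ m : ℕ in atTop, ∀ J : Finset (Fin s),
      0 < absLogHeight (fun j : J => (α j : Qbar)) →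
      |C| * (1 + D) + |C| * D * Real.log m < m * absLogHeight (fun j : J => (α j : Qbar)) := by
    rw [eventually_all]
    intro J
    by_cases hJ : 0 < absLogHeight (fun j : J => (α j : Qbar))
    · filter_upwards [growth (|C| * (1 + D)) (|C| * D) _ hJ] with m hm _
      exact hm
    · exact Eventually.of_forall fun m h => absurd h hJ
  obtain ⟨M1, hM1⟩ := eventually_atTop.1 hev
  -- torsion
  have hQ : ∀ p : Fin s × Fin s, ∃ q : ℕ, 0 < q ∧
      (h1 ((α p.1 / α p.2 : Qbarˣ) : Qbar) = 0 → (α p.1 / α p.2) ^ q = 1) := by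
    intro p
    by_cases h : h1 ((α p.1 / α p.2 : Qbarˣ) : Qbar) = 0
    · obtain ⟨q, hq, h2⟩ := kron _ h
      exact ⟨q, hq, fun _ => h2⟩
    · exact ⟨1, one_pos, fun h2 => absurd h2 h⟩
  choose q hq0 hq1 using hQ
  set Q : ℕ := ∏ p, q p with hQdef
  have hQ0 : 0 < Q := Finset.prod_pos fun p _ => hq0 p
  have hQ1 : ∀ i j : Fin s, h1 ((α i / α j : Qbarˣ) : Qbar) = 0 → (α i / α j) ^ Q = 1 := by
    intro i j h
    obtain ⟨t, ht⟩ := Finset.dvd_prod_of_mem q (Finset.mem_univ (i, j))
    rw [hQdef, ht, pow_mul, hq1 (i, j) h, one_pow]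
  -- the coefficients of the curves
  let cc : Finset (Fin s) × Fin s × Fin Q → Fin s → Fin (n + 1) → Qbar := fun t j a =>
    if j ∈ t.1 then ((α j / α t.2.1 : Qbarˣ) : Qbar) ^ (t.2.2 : ℕ) * w j a else 0
  have hsub : {p : Projectivization Qbar (Fin (n + 1) → Qbar) | ∃ m : ℕ,
      OnOff P G (epv α l w m) ∧
      ∃ h : epv α l w m ≠ 0, p = Projectivization.mk Qbar (epv α l w m) h} ⊆
      (⋃ m ∈ Finset.range (M1 + 1), {p | ∃ h : epv α l w m ≠ 0,
        p = Projectivization.mk Qbar (epv α l w m) h}) ∪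
      ⋃ t : Finset (Fin s) × Fin s × Fin Q,
        {p : Projectivization Qbar (Fin (n + 1) → Qbar) | ∃ m : ℕ,
          OnOff P G (fun a => ∑ j, (m : Qbar) ^ (l j) * cc t j a) ∧
          ∃ h : (fun a => ∑ j, (m : Qbar) ^ (l j) * cc t j a) ≠ 0,
            p = Projectivization.mk Qbar _ h} := by
    rintro p ⟨m, hon, h0, rfl⟩
    by_cases hm : m < M1 + 1
    · left
      simp only [Set.mem_iUnion]
      exact ⟨m, Finset.mem_range.2 hm, h0, rfl⟩
    · right
      have hm1 : 1 ≤ m := by omega
      have hon' := hon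
      rw [epv_eq] at hon'
      obtain ⟨J, hJ, hh⟩ := hC (fun j => α j ^ m) (tm l w m)
        (fun j => ⟨1, one_pos, by rw [pow_one]; exact Γ.pow_mem (hαΓ j) m⟩) hon'
      obtain ⟨c, hc, hc2⟩ := good_prop J _ _ hJ hon'.1
      have hJne : ∃ j1, j1 ∈ J := by
        by_contra h
        push Not at h
        have h2 : J = ∅ := Finset.eq_empty_of_forall_notMem h
        apply smul_ne_zero hc hon'.1
        rw [← hc2, h2]
        funext a
        unfold Pool.Agent.Y215.SK.psum
        simp
      obtain ⟨j1, hj1⟩ := hJne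
      have hHJ : absLogHeight (fun j : J => (α j : Qbar)) = 0 := by
        by_contra hne
        have hpos := lt_of_le_of_ne (absLogHeight_nonneg (fun j : J => (α j : Qbar)))
          (Ne.symm hne)
        have h2 := hM1 m (by omega) J hpos
        have h3 : absLogHeight (fun j : J => ((α j ^ m : Qbarˣ) : Qbar)) =
            m * absLogHeight (fun j : J => (α j : Qbar)) := by
          rw [← Pool.Agent.Y215.SP.abs_pow]
          congr 1
        rw [h3] at hh
        have h4 : C * (1 + hV (tm l w m)) ≤ |C| * (1 + D * (1 + Real.log m)) := by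
          have h5 : 0 ≤ hV (tm l w m) := absLogHeight_nonneg _
          exact mul_le_mul (le_abs_self C) (by linarith [hD m hm1]) (by linarith) (abs_nonneg C)
        nlinarith
      have htor : ∀ j ∈ J, (α j / α j1) ^ Q = 1 := by
        intro j hj
        apply hQ1
        refine le_antisymm ?_ (h1_nonneg _)
        have h3 := h1_ratio_le (fun j : J => (α j : Qbar)) ⟨j, hj⟩ ⟨j1, hj1⟩ (α j1).ne_zero
        rw [hHJ] at h3
        rw [Units.val_div_eq_div_val]
        exact h3
      rw [Set.mem_iUnion]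
      let b : Fin Q := ⟨m % Q, Nat.mod_lt _ hQ0⟩
      refine ⟨(J, j1, b), m, ?_⟩
      -- the partial sum
      have hps : (fun a => ∑ j, (m : Qbar) ^ (l j) * cc (J, j1, b) j a) =
          (c / (α j1 : Qbar) ^ m) • epv α l w m := by
        funext a
        have h2 := congrFun hc2 a
        rw [← epv_eq, Pi.smul_apply, smul_eq_mul] at h2
        rw [Pi.smul_apply, smul_eq_mul, div_mul_eq_mul_div,
          eq_div_iff (pow_ne_zero _ (α j1).ne_zero), ← h2]
        unfold Pool.Agent.Y215.SK.psum
        rw [Finset.sum_mul, ← Finset.sum_subset (Finset.subset_univ J)]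
        · refine Finset.sum_congr rfl fun j hj => ?_
          have h3 : cc (J, j1, b) j a =
              ((α j / α j1 : Qbarˣ) : Qbar) ^ (m % Q) * w j a := if_pos hj
          have h4 : ((α j / α j1 : Qbarˣ) : Qbar) ^ (m % Q) =
              ((α j / α j1 : Qbarˣ) : Qbar) ^ m := by
            have h5 : (α j / α j1) ^ (m % Q) = (α j / α j1) ^ m := by
              conv_rhs => rw [← Nat.mod_add_div m Q, pow_add, pow_mul, htor j hj, one_pow, mul_one]
            have h6 := congrArg (fun x : Qbarˣ => (x : Qbar)) h5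
            simpa only [Units.val_pow_eq_pow_val] using h6
          rw [h3, h4, Units.val_div_eq_div_val, div_pow, Units.val_pow_eq_pow_val]
          unfold tm
          have := pow_ne_zero m (α j1).ne_zero
          field_simp
        · intro j _ hj
          have h3 : cc (J, j1, b) j a = 0 := if_neg hj
          rw [h3, mul_zero, zero_mul]
      have hb : c / (α j1 : Qbar) ^ m ≠ 0 := div_ne_zero hc (pow_ne_zero _ (α j1).ne_zero)
      have hon2 : OnOff P G (fun a => ∑ j, (m : Qbar) ^ (l j) * cc (J, j1, b) j a) := by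
        rw [hps]
        refine ⟨smul_ne_zero hb hon.1, fun i => ?_, ?_⟩
        · obtain ⟨e, he⟩ := hP i
          have h2 := aeval_hom_smul _ he (c / (α j1 : Qbar) ^ m) (epv α l w m)
          rw [show (c / (α j1 : Qbar) ^ m) • epv α l w m =
            fun a => (c / (α j1 : Qbar) ^ m) * epv α l w m a from rfl, h2, hon.2.1, mul_zero]
        · obtain ⟨e, he⟩ := hGh
          have h2 := aeval_hom_smul _ he (c / (α j1 : Qbar) ^ m) (epv α l w m)
          rw [show (c / (α j1 : Qbar) ^ m) • epv α l w m =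
            fun a => (c / (α j1 : Qbar) ^ m) * epv α l w m a from rfl, h2]
          exact mul_ne_zero (pow_ne_zero _ hb) hon.2.2
      refine ⟨hon2, hon2.1, ?_⟩
      rw [Projectivization.mk_eq_mk_iff']
      refine ⟨(c / (α j1 : Qbar) ^ m)⁻¹, ?_⟩
      rw [hps, smul_smul, inv_mul_cancel₀ hb, one_smul]
  refine Set.Finite.subset ?_ hsub
  refine Set.Finite.union ?_ ?_
  · refine Set.Finite.biUnion (Finset.finite_toSet _) fun m _ => ?_
    refine Set.Subsingleton.finite ?_
    rintro p ⟨h1, rfl⟩ q ⟨h2, rfl⟩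
    rfl
  · exact Set.finite_iUnion fun t => poly_curve P G hG (cc t) l

end Pool.Agent.R870
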