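import Mathlib
import Pool.Agent.R870.Rec2
import Pool.Agent.R870.Mat
import Pool.Agent.R870.LinDefs
import Pool.Agent.Y215.SP.Off

set_option autoImplicit false

/-! # Linear recurrence sequences of points on a variety -/

namespace Pool.Agent.R870

open MvPolynomial Pool.Agent.Helper259.AbsHt Pool.Agent.H533R3.SL Pool.Agent.Y215.SK

variable {n N r : ℕ}

/-- the terms of a linear recurrence sequence are values of an exponential polynomial -/
theorem term_epv (M : Matrix (Fin (n + 1)) (Fin r) Qbar) (A : Matrix (Fin r) (Fin r) Qbar)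
    (v : Fin r → Qbar) : ∃ (α : Fin (r * r) → Qbarˣ) (l : Fin (r * r) → ℕ)
      (w : Fin (r * r) → Fin (n + 1) → Qbar), ∀ m, r ≤ m → term M A v m = epv α l w m := by
  obtain ⟨α, W, hW⟩ := closed_form (Matrix.toLin' A) v r (by simp)
  refine ⟨fun j => α (finProdFinEquiv.symm j).1, fun j => ((finProdFinEquiv.symm j).2 : ℕ),
    fun j a => ∑ i, M a i * W (finProdFinEquiv.symm j).1 (finProdFinEquiv.symm j).2 i,
    fun m hm => ?_⟩
  have h1 : (A ^ m).mulVec v = ∑ j : Fin r, ∑ l : Fin r,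
      ((α j : Qbar) ^ m * (m : Qbar) ^ (l : ℕ)) • W j l := by
    rw [← hW m hm, ← Matrix.toLin'_pow, Matrix.toLin'_apply]
  funext a
  unfold term epv
  rw [h1, Equiv.sum_comp finProdFinEquiv.symm (fun q : Fin r × Fin r =>
    (α q.1 : Qbar) ^ m * ((m : Qbar) ^ (q.2 : ℕ) * ∑ i, M a i * W q.1 q.2 i)),
    Fintype.sum_prod_type]
  simp only [Matrix.mulVec, dotProduct, Finset.sum_apply, Pi.smul_apply, smul_eq_mul,
    Finset.mul_sum]
  rw [Finset.sum_comm]
  refine Finset.sum_congr rfl fun j _ => ?_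
  rw [Finset.sum_comm]
  refine Finset.sum_congr rfl fun l _ => ?_
  refine Finset.sum_congr rfl fun i _ => ?_
  ring

/-- **Finiteness for linear recurrence sequences over `Qbar`.** -/
theorem lin_finite {k : Type} [Field k] (P : Fin N → MvPolynomial (Fin (n + 1)) k)
    (hP : ∀ i, ∃ e, (P i).IsHomogeneous e) (hprime : (Ideal.span (Set.range P)).IsPrime)
    (hnu : ¬ Uniruled (Ideal.span (Set.range P))) (r : ℕ) :
    ∃ G : MvPolynomial (Fin (n + 1)) k, (∃ e, G.IsHomogeneous e) ∧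
      G ∉ Ideal.span (Set.range P) ∧
      ∀ [Algebra k Qbar] (M : Matrix (Fin (n + 1)) (Fin r) Qbar)
        (A : Matrix (Fin r) (Fin r) Qbar) (v : Fin r → Qbar), (termsOff P G M A v).Finite := by
  choose e he using hP
  obtain ⟨G, h1, h2, h3⟩ := exists_hyper (Set.range P) hprime hnu (∑ i, e i + 1) (by omega) (by
    rintro _ ⟨i, rfl⟩
    refine ⟨e i, ?_, he i⟩
    have := Finset.single_le_sum (f := e) (fun _ _ => Nat.zero_le _) (Finset.mem_univ i)
    omega) (r * r)
  refine ⟨G, h1, h2, fun {_} M A v => ?_⟩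
  obtain ⟨α, l, w, hw⟩ := term_epv M A v
  have hfin := ep_finite P (fun i => ⟨_, he i⟩) G h1 (fun L _ _ c l hz hc => by
    refine h3 L c l ?_ hc
    rintro _ ⟨i, rfl⟩
    exact hz i) α l w
  refine (((Finset.finite_toSet (Finset.range r)).biUnion (t := fun m =>
    {p | ∃ h : term M A v m ≠ 0, p = Projectivization.mk Qbar (term M A v m) h})
    fun m _ => ?_).union hfin).subset ?_
  · refine Set.Subsingleton.finite ?_
    rintro p ⟨h1, rfl⟩ q ⟨h2, rfl⟩
    rfl
  · rintro p ⟨m, hm1, hm2, h0, rfl⟩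
    by_cases hm : m < r
    · left
      simp only [Set.mem_iUnion]
      exact ⟨m, by simpa using hm, h0, rfl⟩
    · right
      have e1 := hw m (by omega)
      refine ⟨m, ⟨?_, ?_, ?_⟩, ?_⟩
      · rw [← e1]; exact h0
      · rw [← e1]; exact hm1
      · rw [← e1]; exact hm2
      · have h5 : epv α l w m ≠ 0 := by rw [← e1]; exact h0
        exact ⟨h5, Pool.Agent.Y215.SP.mk_congr h0 h5 e1⟩

/-- **Converse.** -/
theorem lin_converse (k : Type) [Field k] [NumberField k]
    (P : Fin N → MvPolynomial (Fin (n + 1)) k) (hu : Uniruled (Ideal.span (Set.range P))) :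
    ∃ r : ℕ, ∀ G : MvPolynomial (Fin (n + 1)) k, (∃ e, G.IsHomogeneous e) →
      G ∉ Ideal.span (Set.range P) →
      ∃ (K : Type) (_ : Field K) (_ : NumberField K) (_ : Algebra k K)
        (M : Matrix (Fin (n + 1)) (Fin r) K) (A : Matrix (Fin r) (Fin r) K) (v : Fin r → K),
        (∀ m i, aeval (term M A v m) (P i) = 0) ∧ (termsOff P G M A v).Infinite := by
  obtain ⟨r, hr⟩ := uniruled_curves k P hu
  refine ⟨r, fun G hG hGI => ?_⟩
  obtain ⟨K, i1, i2, i3, w, hw⟩ := hr G hG hGI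
  obtain ⟨h1, h2⟩ := hw K (AlgHom.id k K)
  refine ⟨K, i1, i2, i3, Matrix.of fun a j => w j a,
    Matrix.diagonal fun j => (2 : K) ^ (j : ℕ), fun _ => 1, ?_⟩
  have hterm : ∀ m : ℕ, term (Matrix.of fun a j => w j a)
      (Matrix.diagonal fun j : Fin r => (2 : K) ^ (j : ℕ)) (fun _ => 1) m =
      cpt (fun j a => AlgHom.id k K (w j a)) ((2 : K) ^ m) := by
    intro m
    funext a
    unfold term cpt
    rw [Matrix.diagonal_pow, Matrix.mulVec, dotProduct]
    refine Finset.sum_congr rfl fun j _ => ?_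
    rw [Matrix.mulVec_diagonal]
    simp only [Matrix.of_apply, Pi.pow_apply, AlgHom.coe_id, id_eq, mul_one]
    rw [← pow_mul, ← pow_mul, mul_comm, mul_comm m]
  refine ⟨fun m i => by rw [hterm]; exact h1 _ i, ?_⟩
  have hinf : (Set.range (fun m : ℕ => (2 : K) ^ m)).Infinite := by
    refine Set.infinite_range_of_injective ?_
    intro a b hab
    have h1 : (2 : K) ^ a = 2 ^ b := hab
    have h2 : ((2 ^ a : ℕ) : K) = ((2 ^ b : ℕ) : K) := by
      push_cast
      exact h1
    have h3 : (2 : ℕ) ^ a = 2 ^ b := by exact_mod_cast h2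
    exact Nat.pow_right_injective le_rfl h3
  refine (h2 _ hinf).mono ?_
  rintro p ⟨_, ⟨m, rfl⟩, hG, h0, hp⟩
  refine ⟨m, fun i => by rw [hterm]; exact h1 _ i, by rw [hterm]; exact hG, ?_⟩
  have h5 : term (Matrix.of fun a j => w j a)
      (Matrix.diagonal fun j : Fin r => (2 : K) ^ (j : ℕ)) (fun _ => 1) m ≠ 0 := by
    rw [hterm]
    exact h0
  exact ⟨h5, hp.trans (Pool.Agent.Y215.SP.mk_congr h0 h5 (hterm m).symm)⟩

end Pool.Agent.R870
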