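import Mathlib
import Pool.Agent.Y215.SK.FinC
import Pool.Agent.R870.Tors

set_option autoImplicit false

/-! # Points close to a group of finite rank -/

namespace Pool.Agent.R870

open MvPolynomial Pool.Agent.Helper259.AbsHt Pool.Agent.H533R3.SL Pool.Agent.Y215.SK
  Pool.Agent.Y215.SP

variable {n N : ℕ}

/-- **Converse.** -/
theorem near_converse (k : Type) [Field k] [NumberField k]
    (P : Fin N → MvPolynomial (Fin (n + 1)) k) (hu : Uniruled (Ideal.span (Set.range P))) :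
    ∃ r : ℕ, ∀ G : MvPolynomial (Fin (n + 1)) k, (∃ e, G.IsHomogeneous e) →
      G ∉ Ideal.span (Set.range P) →
      ∃ (_ : Algebra k Qbar) (V : Fin r → Fin (n + 1) → Qbar), ∀ ε : ℝ, 0 < ε →
        (mixPts P G ⊥ ε V).Infinite := by
  obtain ⟨r, hr⟩ := tors_converse k P hu
  refine ⟨r, fun G hG hGI => ?_⟩
  obtain ⟨i1, v, hv⟩ := hr G hG hGI
  refine ⟨i1, v, fun ε hε => hv.mono ?_⟩
  rintro p ⟨ζ, hζ, h1, h2, h3, h4⟩
  have e1 : Pool.Agent.Y215.SK.psum Finset.univ (fun _ => (1 : Qbarˣ))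
      (fun j a => ζ j * v j a) = fun a => ∑ j, ζ j * v j a := by
    funext a
    unfold Pool.Agent.Y215.SK.psum
    refine Finset.sum_congr rfl fun j _ => ?_
    rw [Units.val_one, one_mul]
  refine ⟨fun _ => 1, ζ, fun _ => ⟨1, one_pos, by rw [one_pow]; exact Subgroup.one_mem _⟩, ?_,
    ?_, ?_⟩
  · rw [height_tors ζ fun j => Or.inr (hζ j)]
    exact hε
  · rw [e1]
    exact ⟨h3, h1, h2⟩
  · have h5 : Pool.Agent.Y215.SK.psum Finset.univ (fun _ => (1 : Qbarˣ))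
        (fun j a => ζ j * v j a) ≠ 0 := by
      rw [e1]
      exact h3
    exact ⟨h5, h4.trans (mk_congr h3 h5 e1.symm)⟩

/-- **Finiteness, with a polynomial bound.** -/
theorem near_finite (d r : ℕ) : ∃ ε : ℝ, 0 < ε ∧ ∀ (k : Type) [Field k] (n N : ℕ)
    (P : Fin N → MvPolynomial (Fin (n + 1)) k), (∀ i, ∃ e, e ≤ d ∧ (P i).IsHomogeneous e) →
    (Ideal.span (Set.range P)).IsPrime → ¬ Uniruled (Ideal.span (Set.range P)) →
    ∃ G : MvPolynomial (Fin (n + 1)) k, (∃ e, G.IsHomogeneous e) ∧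
      G ∉ Ideal.span (Set.range P) ∧
      ∀ [Algebra k Qbar] (Γ : Subgroup Qbarˣ), Γ.FG → ∃ (A : ℝ) (e : ℕ),
        ∀ V : Fin r → Fin (n + 1) → Qbar, (mixPts P G Γ ε V).Finite ∧
          ((mixPts P G Γ ε V).ncard : ℝ) ≤ A * (1 + hV V) ^ e := by
  refine ⟨epsn ((d + 1 + 1) ^ r) / (d + 1 : ℕ) / 2, ?_, fun k _ n N P hP hprime hnu => ?_⟩
  · exact half_pos (div_pos (epsn_pos _ (Nat.one_le_pow _ _ (by omega))) (by positivity))
  · have hP' : ∀ i, ∃ e, e ≤ d + 1 ∧ (P i).IsHomogeneous e :=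
      fun i => (hP i).imp fun e he => ⟨he.1.trans (Nat.le_succ d), he.2⟩
    obtain ⟨G, h1, h2, h3⟩ := exists_hyper (Set.range P) hprime hnu (d + 1) (by omega) (by
      rintro _ ⟨i, rfl⟩
      exact hP' i) r
    refine ⟨G, h1, h2, fun {_} Γ hΓ => ?_⟩
    exact mix_finite P (d + 1) (by omega) hP' G h1 (fun L _ _ c l hz hc => by
      refine h3 L c l ?_ hc
      rintro _ ⟨i, rfl⟩
      exact hz i) Γ hΓ

end Pool.Agent.R870
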