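import Mathlib
import Pool.Agent.R870.Rec2

set_option autoImplicit false

/-! # Sequences with widely separated growth of the heights: preparations -/

namespace Pool.Agent.R870

open MvPolynomial Pool.Agent.Helper259.AbsHt Pool.Agent.H533R3.SL Pool.Agent.Y215.SK
  Pool.Agent.Y215.SP Height Module Filter

variable {n N s : ℕ}

/-- heights of values of a polynomial -/
theorem poly_h1 {ι : Type} [Fintype ι] (p : MvPolynomial ι Qbar) :
    ∃ C : ℝ, 0 ≤ C ∧ ∀ Y : ι → Qbar,
      h1 (MvPolynomial.eval Y p) ≤ C * (1 + ∑ v, h1 (Y v)) := by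
  induction p using MvPolynomial.induction_on with
  | C a =>
    refine ⟨h1 a, h1_nonneg a, fun Y => ?_⟩
    rw [MvPolynomial.eval_C]
    have : 0 ≤ ∑ v, h1 (Y v) := Finset.sum_nonneg fun v _ => h1_nonneg _
    nlinarith [h1_nonneg a]
  | add p q hp hq =>
    obtain ⟨C, hC, h⟩ := hp
    obtain ⟨D, hD, h'⟩ := hq
    refine ⟨Real.log 2 + C + D, by positivity, fun Y => ?_⟩
    rw [map_add]
    have h3 : 0 ≤ ∑ v, h1 (Y v) := Finset.sum_nonneg fun v _ => h1_nonneg _
    have h4 := h1_add_le (MvPolynomial.eval Y p) (MvPolynomial.eval Y q)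
    have h5 := h Y
    have h6 := h' Y
    have h7 : 0 ≤ Real.log 2 * ∑ v, h1 (Y v) := mul_nonneg (Real.log_nonneg one_le_two) h3
    nlinarith
  | mul_X p i hp =>
    obtain ⟨C, hC, h⟩ := hp
    refine ⟨C + 1, by linarith, fun Y => ?_⟩
    rw [map_mul, MvPolynomial.eval_X]
    have h3 : 0 ≤ ∑ v, h1 (Y v) := Finset.sum_nonneg fun v _ => h1_nonneg _
    have h4 : h1 (Y i) ≤ ∑ v, h1 (Y v) :=
      Finset.single_le_sum (f := fun v => h1 (Y v)) (fun v _ => h1_nonneg _) (Finset.mem_univ i)
    have h5 := h1_mul_le (MvPolynomial.eval Y p) (Y i)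
    have h6 := h Y
    nlinarith

theorem cur_map' {R T : Type} [CommRing R] [CommRing T] (φ : R →+* T) {M : ℕ}
    (v : Fin M → Fin (n + 1) → R) (l : Fin M → ℕ) (i : Fin (n + 1)) :
    cur (fun j a => φ (v j a)) l i = (cur v l i).map φ := by
  unfold cur
  rw [Polynomial.map_sum]
  refine Finset.sum_congr rfl fun j _ => ?_
  rw [Polynomial.map_mul, Polynomial.map_C, Polynomial.map_pow, Polynomial.map_X]

/-- the generic vectors -/
noncomputable def gen (s n : ℕ) (j : Fin s) (a : Fin (n + 1)) :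
    MvPolynomial (Fin s × Fin (n + 1)) Qbar := MvPolynomial.X (j, a)

theorem aeval_gen {k : Type} [Field k] [Algebra k Qbar] (F : MvPolynomial (Fin (n + 1)) k)
    (l : Fin s → ℕ) (Y : Fin s → Fin (n + 1) → Qbar) :
    (aeval (cur Y l) F : Polynomial Qbar) =
      (aeval (cur (gen s n) l) F : Polynomial (MvPolynomial (Fin s × Fin (n + 1)) Qbar)).map
        (MvPolynomial.eval (fun p : Fin s × Fin (n + 1) => Y p.1 p.2)) := by
  set φ : MvPolynomial (Fin s × Fin (n + 1)) Qbar →+* Qbar :=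
    MvPolynomial.eval (fun p : Fin s × Fin (n + 1) => Y p.1 p.2) with hφ
  have h0 : cur Y l = fun i => (cur (gen s n) l i).map φ := by
    funext i
    rw [← cur_map']
    congr 1
    funext j a
    show Y j a = MvPolynomial.eval _ (MvPolynomial.X (j, a))
    rw [MvPolynomial.eval_X]
  rw [h0]
  show _ = Polynomial.mapRingHom φ _
  rw [MvPolynomial.aeval_def, MvPolynomial.aeval_def,
    MvPolynomial.hom_eval₂ F _ (Polynomial.mapRingHom φ) _]
  congr 1
  refine RingHom.ext fun a => ?_
  rw [RingHom.comp_apply, Polynomial.algebraMap_apply, Polynomial.algebraMap_apply]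
  show Polynomial.C _ = Polynomial.map _ (Polynomial.C _)
  rw [Polynomial.map_C]
  congr 1
  rw [MvPolynomial.algebraMap_apply, hφ, MvPolynomial.eval_C]

/-- the height of a root -/
theorem root_h1 (E : ℕ) : ∃ C : ℝ, 0 ≤ C ∧ ∀ (f : Polynomial Qbar) (t : Qbar), f ≠ 0 →
    f.natDegree ≤ E → f.eval t = 0 → h1 t ≤ C + ∑ e : Fin (E + 1), h1 (f.coeff e) := by
  obtain ⟨C, hC⟩ := absLogHeight_root E
  refine ⟨|C|, abs_nonneg _, fun f t hf hE ht => ?_⟩
  have h2 := hC f t hf hE ht
  have h3 : h1 t ≤ absLogHeight ![1, t] := by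
    have h4 := absLogHeight_comp_le ![(1 : Fin 2), 0] ![(1 : Qbar), t]
    have h5 : ![(1 : Qbar), t] ∘ ![(1 : Fin 2), 0] = ![t, 1] := by
      funext i
      fin_cases i <;> simp
    rw [h5] at h4
    exact h4
  have h4 := height_le_sum (Pool.Agent.Helper259.HtPoly.cv E f)
  have h5 := le_abs_self C
  refine h3.trans (h2.trans ?_)
  refine add_le_add h5 h4

/-- either a whole curve lies on a hypersurface, or the height of the parameter is bounded -/
theorem curve_or {k : Type} [Field k] [Algebra k Qbar] (F : MvPolynomial (Fin (n + 1)) k)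
    (l : Fin s → ℕ) : ∃ C : ℝ, 0 ≤ C ∧ ∀ (Y : Fin s → Fin (n + 1) → Qbar) (t : Qbar),
      aeval (fun a => ∑ j, t ^ (l j) * Y j a) F = 0 →
      (aeval (cur Y l) F : Polynomial Qbar) = 0 ∨
        h1 t ≤ C * (1 + ∑ p : Fin s × Fin (n + 1), h1 (Y p.1 p.2)) := by
  classical
  obtain ⟨f, hf⟩ : ∃ f : Polynomial (MvPolynomial (Fin s × Fin (n + 1)) Qbar),
    f = aeval (cur (gen s n) l) F := ⟨_, rfl⟩
  obtain ⟨C0, hC0, hC⟩ := root_h1 f.natDegree
  choose D hD0 hD using fun e : Fin (f.natDegree + 1) => poly_h1 (f.coeff e)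
  refine ⟨C0 + ∑ e, D e, add_nonneg hC0 (Finset.sum_nonneg fun e _ => hD0 e), fun Y t h0 => ?_⟩
  rw [aeval_cur, aeval_gen, ← hf] at h0
  rw [aeval_gen, ← hf]
  by_cases h : f.map (MvPolynomial.eval (fun p : Fin s × Fin (n + 1) => Y p.1 p.2)) = 0
  · exact Or.inl h
  · right
    have h2 := hC _ t h Polynomial.natDegree_map_le h0
    refine h2.trans ?_
    have h3 : ∑ e : Fin (f.natDegree + 1), h1 ((f.map (MvPolynomial.eval
        (fun p : Fin s × Fin (n + 1) => Y p.1 p.2))).coeff e) ≤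
        (∑ e, D e) * (1 + ∑ p : Fin s × Fin (n + 1), h1 (Y p.1 p.2)) := by
      rw [Finset.sum_mul]
      refine Finset.sum_le_sum fun e _ => ?_
      rw [Polynomial.coeff_map]
      exact hD e _
    have h4 : 0 ≤ ∑ p : Fin s × Fin (n + 1), h1 (Y p.1 p.2) :=
      Finset.sum_nonneg fun p _ => h1_nonneg _
    nlinarith

/-- rescaling the parameter of a curve -/
theorem aeval_scale {k : Type} [Field k] [Algebra k Qbar] (F : MvPolynomial (Fin (n + 1)) k)
    (l : Fin s → ℕ) (Y : Fin s → Fin (n + 1) → Qbar) (t : Qbar)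
    (h : (aeval (cur Y l) F : Polynomial Qbar) = 0) :
    (aeval (cur (fun j a => t ^ (l j) * Y j a) l) F : Polynomial Qbar) = 0 := by
  have hcomp : ∀ a, cur (fun j a => t ^ (l j) * Y j a) l a =
      (cur Y l a).comp (Polynomial.C t * Polynomial.X) := by
    intro a
    unfold cur
    rw [Polynomial.sum_comp]
    refine Finset.sum_congr rfl fun j _ => ?_
    rw [Polynomial.mul_comp, Polynomial.C_comp, Polynomial.pow_comp, Polynomial.X_comp,
      mul_pow, Polynomial.C_mul, Polynomial.C_pow]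
    ring
  have h1 : (aeval (cur (fun j a => t ^ (l j) * Y j a) l) F :
      Polynomial Qbar) = (aeval (cur Y l) F : Polynomial Qbar).comp
        (Polynomial.C t * Polynomial.X) := by
    rw [show cur (fun j a => t ^ (l j) * Y j a) l = fun a =>
      (cur Y l a).comp (Polynomial.C t * Polynomial.X) from funext hcomp]
    rw [← Polynomial.coe_compRingHom_apply, MvPolynomial.aeval_def, MvPolynomial.aeval_def,
      MvPolynomial.hom_eval₂ F _ (Polynomial.compRingHom _) _]
    congr 1
    refine RingHom.ext fun a => ?_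
    rw [RingHom.comp_apply, Polynomial.algebraMap_apply, Polynomial.coe_compRingHom_apply]
    show Polynomial.C _ = (Polynomial.C _).comp _
    rw [Polynomial.C_comp]
  rw [h1, h, Polynomial.zero_comp]

end Pool.Agent.R870
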