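import Mathlib
import Pool.Agent.Helper259.AbsHt

set_option autoImplicit false

/-! # Sequences with widely separated growth of the heights: definitions -/

namespace Pool.Agent.R870

open MvPolynomial Pool.Agent.Helper259.AbsHt Filter

variable {n N q r : ℕ}

/-- the absolute logarithmic height of an algebraic number -/
noncomputable def ht (a : Qbar) : ℝ := absLogHeight ![a, 1]

/-- the heights of the terms of the sequences `S_1, …, S_q` grow faster and faster: the height of
`S_i (m)` grows faster than `m`, and the height of `S_j (m)` grows faster than the height of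
`S_i (m)` for `i < j` -/
def Separated (S : Fin q → ℕ → Qbarˣ) : Prop :=
  (∀ i, (fun m : ℕ => (m : ℝ)) =o[atTop] fun m : ℕ => ht (S i m : Qbar)) ∧
  ∀ i j, i < j → (fun m : ℕ => ht (S i m : Qbar)) =o[atTop] fun m : ℕ => ht (S j m : Qbar)

/-- the vector `∑_j S_1 (m) ^ (b_j1) ⋯ S_q (m) ^ (b_jq) α_j ^ m m ^ (l_j) w_j` -/
noncomputable def sepv (S : Fin q → ℕ → Qbarˣ) (b : Fin r → Fin q → ℕ) (α : Fin r → Qbarˣ)
    (l : Fin r → ℕ) (w : Fin r → Fin (n + 1) → Qbar) (m : ℕ) : Fin (n + 1) → Qbar :=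
  fun a => ∑ j, (∏ i, (S i m : Qbar) ^ (b j i)) * ((α j : Qbar) ^ m * ((m : Qbar) ^ (l j) * w j a))

/-- the points with these homogeneous coordinates, for some `m ≥ 0`, which are zeros of the `P_i`
and not of `G` -/
def sepOff {k : Type} [Field k] [Algebra k Qbar] (P : Fin N → MvPolynomial (Fin (n + 1)) k)
    (G : MvPolynomial (Fin (n + 1)) k) (S : Fin q → ℕ → Qbarˣ) (b : Fin r → Fin q → ℕ)
    (α : Fin r → Qbarˣ) (l : Fin r → ℕ) (w : Fin r → Fin (n + 1) → Qbar) :
    Set (Projectivization Qbar (Fin (n + 1) → Qbar)) :=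
  {p | ∃ m : ℕ, (∀ i, aeval (sepv S b α l w m) (P i) = 0) ∧ aeval (sepv S b α l w m) G ≠ 0 ∧
    ∃ h : sepv S b α l w m ≠ 0, p = Projectivization.mk Qbar (sepv S b α l w m) h}

end Pool.Agent.R870
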