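import Mathlib
import Pool.Agent.R870.Sep
import Pool.Agent.R870.SepDefs

set_option autoImplicit false

/-! # Sequences with widely separated growth of the heights: finiteness -/

namespace Pool.Agent.R870

open MvPolynomial Pool.Agent.Helper259.AbsHt Pool.Agent.H533R3.SL Pool.Agent.Y215.SK
  Pool.Agent.Y215.SP Height Module Filter

variable {n N s : ℕ}

/-- reduction: the sequence of largest growth can be removed -/
theorem sep_step {k : Type} [Field k] [Algebra k Qbar]
    (P : Fin N → MvPolynomial (Fin (n + 1)) k) (hP : ∀ i, ∃ e, (P i).IsHomogeneous e)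
    (G : MvPolynomial (Fin (n + 1)) k) (hGh : ∃ e, G.IsHomogeneous e)
    (hG : ∀ (L : Type) [Field L] [Algebra k L] (c : Fin s → Fin (n + 1) → L) (l : Fin s → ℕ),
        (∀ i, MvPolynomial.aeval (cur c l) (P i) = 0) →
        (∃ i i', cur c l i * Polynomial.C (∑ j, c j i') ≠
          cur c l i' * Polynomial.C (∑ j, c j i)) →
        MvPolynomial.aeval (fun i => ∑ j, c j i) G = 0)
    (Y : ℕ → Fin s → Fin (n + 1) → Qbar) (t : ℕ → Qbarˣ) (lt : Fin s → ℕ)
    (hgr : ∀ C : ℝ, ∀ᶠ m : ℕ in atTop,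
      C * (1 + ∑ p : Fin s × Fin (n + 1), h1 (Y m p.1 p.2)) < h1 (t m : Qbar)) :
    ∀ᶠ m : ℕ in atTop, ∀ h : (fun a => ∑ j, (t m : Qbar) ^ (lt j) * Y m j a) ≠ 0,
      OnOff P G (fun a => ∑ j, (t m : Qbar) ^ (lt j) * Y m j a) →
      ∃ e ∈ Finset.univ.image lt, OnOff P G (fun a => ∑ j, if lt j = e then Y m j a else 0) ∧
        ∃ h' : (fun a => ∑ j, if lt j = e then Y m j a else 0) ≠ 0,
          Projectivization.mk Qbar _ h = Projectivization.mk Qbar _ h' := by
  classical
  choose C hC0 hC using fun i => curve_or (P i) lt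
  have hev : ∀ᶠ m : ℕ in atTop, ∀ i, C i * (1 + ∑ p : Fin s × Fin (n + 1), h1 (Y m p.1 p.2)) <
      h1 (t m : Qbar) := by
    rw [eventually_all]
    exact fun i => hgr (C i)
  filter_upwards [hev] with m hm h hon
  set x : Fin (n + 1) → Qbar := fun a => ∑ j, (t m : Qbar) ^ (lt j) * Y m j a with hx
  have hcur : ∀ i, (aeval (cur (Y m) lt) (P i) : Polynomial Qbar) = 0 := by
    intro i
    rcases hC i (Y m) (t m : Qbar) (hon.2.1 i) with h2 | h2
    · exact h2
    · exact absurd h2 (not_le.2 (hm i))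
  have hcur2 := fun i => aeval_scale (P i) lt (Y m) (t m : Qbar) (hcur i)
  have hconst : ∀ i i', cur (fun j a => (t m : Qbar) ^ (lt j) * Y m j a) lt i *
      Polynomial.C (∑ j, (t m : Qbar) ^ (lt j) * Y m j i') =
      cur (fun j a => (t m : Qbar) ^ (lt j) * Y m j a) lt i' *
        Polynomial.C (∑ j, (t m : Qbar) ^ (lt j) * Y m j i) := by
    by_contra hne
    push Not at hne
    exact hon.2.2 (hG Qbar _ lt hcur2 hne)
  -- the components
  let z : ℕ → Fin (n + 1) → Qbar := fun e a => ∑ j, if lt j = e then Y m j a else 0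
  have hz : ∀ e a, (cur (fun j a => (t m : Qbar) ^ (lt j) * Y m j a) lt a).coeff e =
      (t m : Qbar) ^ e * z e a := by
    intro e a
    unfold cur
    rw [Polynomial.finsetSum_coeff]
    show _ = (t m : Qbar) ^ e * ∑ j, if lt j = e then Y m j a else 0
    rw [Finset.mul_sum]
    refine Finset.sum_congr rfl fun j _ => ?_
    rw [Polynomial.coeff_C_mul, Polynomial.coeff_X_pow]
    by_cases hj : lt j = e
    · subst hj
      simp
    · rw [if_neg hj, if_neg (fun h => hj h.symm)]
      simp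
  have hprop : ∀ e a a', z e a * x a' = z e a' * x a := by
    intro e a a'
    have h2 := congrArg (fun f => Polynomial.coeff f e) (hconst a a')
    simp only [Polynomial.coeff_mul_C] at h2
    rw [hz, hz] at h2
    have h3 : (t m : Qbar) ^ e ≠ 0 := pow_ne_zero _ (t m).ne_zero
    apply mul_left_cancel₀ h3
    calc (t m : Qbar) ^ e * (z e a * x a') = (t m : Qbar) ^ e * z e a * x a' := by ring
      _ = (t m : Qbar) ^ e * z e a' * x a := h2
      _ = (t m : Qbar) ^ e * (z e a' * x a) := by ring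
  have hxsum : ∀ a, x a = ∑ e ∈ Finset.univ.image lt, (t m : Qbar) ^ e * z e a := by
    intro a
    show ∑ j, (t m : Qbar) ^ (lt j) * Y m j a = _
    rw [← Finset.sum_fiberwise_of_maps_to (s := Finset.univ) (t := Finset.univ.image lt) (g := lt)
      (fun j _ => Finset.mem_image_of_mem lt (Finset.mem_univ j))]
    refine Finset.sum_congr rfl fun e _ => ?_
    show _ = (t m : Qbar) ^ e * ∑ j, if lt j = e then Y m j a else 0
    rw [← Finset.sum_filter, Finset.mul_sum]
    refine Finset.sum_congr rfl fun j hj => ?_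
    rw [(Finset.mem_filter.1 hj).2]
  obtain ⟨e, he, hze⟩ : ∃ e ∈ Finset.univ.image lt, z e ≠ 0 := by
    by_contra hno
    push Not at hno
    apply h
    funext a
    rw [hxsum a]
    refine Finset.sum_eq_zero fun e he => ?_
    rw [hno e he, Pi.zero_apply, mul_zero]
  obtain ⟨a0, ha0⟩ := Function.ne_iff.1 hze
  have ha0' : z e a0 ≠ 0 := ha0
  have hxz : x = (x a0 / z e a0) • z e := by
    funext a
    rw [Pi.smul_apply, smul_eq_mul, div_mul_eq_mul_div, eq_div_iff ha0']
    linear_combination hprop e a0 a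
  have hc0 : x a0 / z e a0 ≠ 0 := by
    intro h0
    apply h
    rw [hxz, h0, zero_smul]
  have hzx : z e = fun a => (x a0 / z e a0)⁻¹ * x a := by
    funext a
    have h2 := congrFun hxz a
    rw [Pi.smul_apply, smul_eq_mul] at h2
    rw [h2, inv_mul_cancel_left₀ hc0]
  refine ⟨e, he, ?_, hze, ?_⟩
  · show OnOff P G (z e)
    rw [hzx]
    refine ⟨?_, fun i => ?_, ?_⟩
    · rw [← hzx]
      exact hze
    · obtain ⟨d, hd⟩ := hP i
      rw [aeval_hom_smul _ hd, hon.2.1, mul_zero]
    · obtain ⟨d, hd⟩ := hGh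
      rw [aeval_hom_smul _ hd]
      exact mul_ne_zero (pow_ne_zero _ (inv_ne_zero hc0)) hon.2.2
  · rw [Projectivization.mk_eq_mk_iff']
    exact ⟨x a0 / z e a0, hxz.symm⟩

theorem little_sum {ι : Type} (s : Finset ι) (f : ι → ℕ → ℝ) (g : ℕ → ℝ)
    (h : ∀ i ∈ s, f i =o[atTop] g) : (fun m => ∑ i ∈ s, f i m) =o[atTop] g := by
  have h2 := Asymptotics.IsLittleO.sum h
  have e : (fun m => ∑ i ∈ s, f i m) = ∑ i ∈ s, f i := by
    funext m
    rw [Finset.sum_apply]
  rw [e]
  exact h2

theorem ht_eq (a : Qbar) : ht a = h1 a := rfl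

theorem one_little (T : ℕ → ℝ) (h1T : (fun m : ℕ => (m : ℝ)) =o[atTop] T) :
    (fun _ : ℕ => (1 : ℝ)) =o[atTop] T := by
  refine Asymptotics.IsLittleO.trans ?_ h1T
  rw [Asymptotics.isLittleO_const_left]
  right
  exact tendsto_norm_atTop_atTop.comp tendsto_natCast_atTop_atTop

/-- eventually `C (1 + B) < T` if `m` and `B` grow slower than `T ≥ 0` -/
theorem little_lt (B T : ℕ → ℝ) (hT : ∀ m, 0 ≤ T m) (h1T : (fun m : ℕ => (m : ℝ)) =o[atTop] T)
    (h2 : B =o[atTop] T) (C : ℝ) : ∀ᶠ m : ℕ in atTop, C * (1 + B m) < T m := by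
  have hpos : ∀ᶠ m : ℕ in atTop, 0 < T m := by
    filter_upwards [h1T.def one_pos, eventually_ge_atTop 1] with m hm hm1
    rw [one_mul, Real.norm_eq_abs, Real.norm_eq_abs, Nat.abs_cast, abs_of_nonneg (hT m)] at hm
    have h2 : (1 : ℝ) ≤ m := by exact_mod_cast hm1
    linarith
  filter_upwards [(((one_little T h1T).add h2).const_mul_left C).def (half_pos one_pos), hpos]
    with m hm hm2
  rw [Real.norm_eq_abs, Real.norm_eq_abs, abs_of_nonneg (hT m)] at hm
  have h3 := le_abs_self (C * (1 + B m))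
  linarith

/-- the heights of the terms -/
theorem term_little {q : ℕ} (S : Fin q → ℕ → Qbarˣ) (b : Fin q → ℕ) (α : Qbarˣ) (l : ℕ)
    (w : Qbar) (T : ℕ → ℝ) (h1T : (fun m : ℕ => (m : ℝ)) =o[atTop] T)
    (h2T : ∀ i, (fun m : ℕ => ht (S i m : Qbar)) =o[atTop] T) :
    (fun m : ℕ => h1 ((∏ i, (S i m : Qbar) ^ (b i)) * ((α : Qbar) ^ m * ((m : Qbar) ^ l * w))))
      =o[atTop] T := by
  have hone := one_little T h1T
  have hbig : (fun m : ℕ => ∑ i, (b i : ℝ) * ht (S i m : Qbar) + (h1 (α : Qbar) * m +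
      ((l : ℝ) * m + h1 w * 1))) =o[atTop] T := by
    refine Asymptotics.IsLittleO.add ?_ ((h1T.const_mul_left _).add
      ((h1T.const_mul_left _).add (hone.const_mul_left _)))
    exact little_sum _ (fun i m => (b i : ℝ) * ht (S i m : Qbar)) _
      fun i _ => (h2T i).const_mul_left _
  refine Asymptotics.IsBigO.trans_isLittleO ?_ hbig
  refine Asymptotics.IsBigO.of_bound 1 (Eventually.of_forall fun m => ?_)
  rw [one_mul, Real.norm_eq_abs, Real.norm_eq_abs, abs_of_nonneg (h1_nonneg _)]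
  refine le_trans ?_ (le_abs_self _)
  have e1 := h1_mul_le (∏ i, (S i m : Qbar) ^ (b i)) ((α : Qbar) ^ m * ((m : Qbar) ^ l * w))
  have e2 := h1_mul_le ((α : Qbar) ^ m) ((m : Qbar) ^ l * w)
  have e3 := h1_mul_le ((m : Qbar) ^ l) w
  have e4 : h1 (∏ i, (S i m : Qbar) ^ (b i)) ≤ ∑ i, (b i : ℝ) * ht (S i m : Qbar) := by
    refine (h1_prod_le _ _).trans (Finset.sum_le_sum fun i _ => ?_)
    rw [h1_pow]
    rfl
  have e5 : h1 ((α : Qbar) ^ m) = m * h1 (α : Qbar) := h1_pow _ _
  have e6 : h1 ((m : Qbar) ^ l) ≤ l * m := by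
    rw [h1_pow]
    refine mul_le_mul_of_nonneg_left ?_ (Nat.cast_nonneg l)
    rcases Nat.eq_zero_or_pos m with rfl | hm
    · rw [Nat.cast_zero, Nat.cast_zero, h1_zero]
    · rw [h1_nat m hm]
      exact (Real.log_le_sub_one_of_pos (by exact_mod_cast hm)).trans (by linarith)
  linarith

/-- **Finiteness for sequences with widely separated growth.** -/
theorem sep_finite {k : Type} [Field k] [Algebra k Qbar]
    (P : Fin N → MvPolynomial (Fin (n + 1)) k) (hP : ∀ i, ∃ e, (P i).IsHomogeneous e)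
    (G : MvPolynomial (Fin (n + 1)) k) (hGh : ∃ e, G.IsHomogeneous e)
    (hG : ∀ (L : Type) [Field L] [Algebra k L] (c : Fin s → Fin (n + 1) → L) (l : Fin s → ℕ),
        (∀ i, MvPolynomial.aeval (cur c l) (P i) = 0) →
        (∃ i i', cur c l i * Polynomial.C (∑ j, c j i') ≠
          cur c l i' * Polynomial.C (∑ j, c j i)) →
        MvPolynomial.aeval (fun i => ∑ j, c j i) G = 0)
    (α : Fin s → Qbarˣ) (l : Fin s → ℕ) :
    ∀ (q : ℕ) (S : Fin q → ℕ → Qbarˣ), Separated S → ∀ (b : Fin s → Fin q → ℕ)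
      (w : Fin s → Fin (n + 1) → Qbar), (sepOff P G S b α l w).Finite := by
  classical
  intro q
  induction q with
  | zero =>
    intro S _ b w
    refine (ep_finite P hP G hGh hG α l w).subset ?_
    have e : ∀ m, sepv S b α l w m = epv α l w m := by
      intro m
      funext a
      unfold sepv epv
      refine Finset.sum_congr rfl fun j _ => ?_
      rw [Fin.prod_univ_zero, one_mul]
    rintro p ⟨m, h1, h2, h3, rfl⟩
    have h4 : epv α l w m ≠ 0 := by rw [← e]; exact h3
    exact ⟨m, ⟨h4, by rw [← e]; exact h1, by rw [← e]; exact h2⟩, h4, mk_congr h3 h4 (e m)⟩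
  | succ q ih =>
    intro S hS b w
    let S' : Fin q → ℕ → Qbarˣ := fun i => S i.castSucc
    have hS' : Separated S' := ⟨fun i => hS.1 _, fun i j hij => hS.2 _ _ (by
      rw [Fin.castSucc_lt_castSucc_iff]; exact hij)⟩
    let b' : Fin s → Fin q → ℕ := fun j i => b j i.castSucc
    let lt : Fin s → ℕ := fun j => b j (Fin.last q)
    let t : ℕ → Qbarˣ := S (Fin.last q)
    let Y : ℕ → Fin s → Fin (n + 1) → Qbar := fun m j a =>
      (∏ i, (S' i m : Qbar) ^ (b' j i)) * ((α j : Qbar) ^ m * ((m : Qbar) ^ (l j) * w j a))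
    have hx : ∀ m, sepv S b α l w m = fun a => ∑ j, (t m : Qbar) ^ (lt j) * Y m j a := by
      intro m
      funext a
      unfold sepv
      refine Finset.sum_congr rfl fun j _ => ?_
      rw [Fin.prod_univ_castSucc]
      show _ = (t m : Qbar) ^ (lt j) * ((∏ i, (S' i m : Qbar) ^ (b' j i)) *
        ((α j : Qbar) ^ m * ((m : Qbar) ^ (l j) * w j a)))
      ring
    have hp : ∀ p : Fin s × Fin (n + 1), (fun m : ℕ => h1 (Y m p.1 p.2)) =o[atTop]
        fun m : ℕ => h1 (t m : Qbar) := by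
      intro p
      have h2 := term_little S' (b' p.1) (α p.1) (l p.1) (w p.1 p.2)
        (fun m : ℕ => h1 (t m : Qbar)) (hS.1 (Fin.last q))
        (fun i => hS.2 i.castSucc (Fin.last q) (Fin.castSucc_lt_last i))
      exact h2
    have hlit : (fun m : ℕ => ∑ p : Fin s × Fin (n + 1), h1 (Y m p.1 p.2)) =o[atTop]
        fun m : ℕ => h1 (t m : Qbar) :=
      little_sum Finset.univ (fun (p : Fin s × Fin (n + 1)) (m : ℕ) => h1 (Y m p.1 p.2))
        (fun m : ℕ => h1 (t m : Qbar)) (fun p _ => hp p)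
    have hgr : ∀ C : ℝ, ∀ᶠ m : ℕ in atTop,
        C * (1 + ∑ p : Fin s × Fin (n + 1), h1 (Y m p.1 p.2)) < h1 (t m : Qbar) :=
      little_lt _ (fun m => h1 (t m : Qbar)) (fun m => h1_nonneg _) (hS.1 (Fin.last q)) hlit
    obtain ⟨M1, hM1⟩ := eventually_atTop.1 (sep_step P hP G hGh hG Y t lt hgr)
    have hred : ∀ e m, (fun a => ∑ j, if lt j = e then Y m j a else 0) =
        sepv S' b' α l (fun j a => if lt j = e then w j a else 0) m := by
      intro e m
      funext a
      unfold sepv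
      refine Finset.sum_congr rfl fun j _ => ?_
      show (if lt j = e then Y m j a else 0) = (∏ i, (S' i m : Qbar) ^ (b' j i)) *
        ((α j : Qbar) ^ m * ((m : Qbar) ^ (l j) * (if lt j = e then w j a else 0)))
      by_cases hj : lt j = e
      · rw [if_pos hj, if_pos hj]
      · rw [if_neg hj, if_neg hj, mul_zero, mul_zero, mul_zero]
    refine (((Finset.finite_toSet (Finset.range M1)).biUnion (t := fun m =>
      {p | ∃ h : sepv S b α l w m ≠ 0, p = Projectivization.mk Qbar (sepv S b α l w m) h})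
      fun m _ => ?_).union ((Finset.finite_toSet (Finset.univ.image lt)).biUnion
        fun e _ => ih S' hS' b' (fun j a => if lt j = e then w j a else 0))).subset ?_
    · refine Set.Subsingleton.finite ?_
      rintro p ⟨h1, rfl⟩ q ⟨h2, rfl⟩
      rfl
    · rintro p ⟨m, hm1, hm2, h0, rfl⟩
      by_cases hm : m < M1
      · left
        simp only [Set.mem_iUnion]
        exact ⟨m, by simpa using hm, h0, rfl⟩
      · right
        have h3 := hM1 m (by omega)
        rw [← hx m] at h3
        obtain ⟨e, he, hon, h', heq⟩ := h3 h0 ⟨h0, hm1, hm2⟩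
        rw [Set.mem_iUnion₂]
        have h4 : sepv S' b' α l (fun j a => if lt j = e then w j a else 0) m ≠ 0 := by
          rw [← hred]; exact h'
        refine ⟨e, by simpa using he, m, ?_, ?_, h4, ?_⟩
        · rw [← hred]; exact hon.2.1
        · rw [← hred]; exact hon.2.2
        · exact heq.trans (mk_congr h' h4 (hred e m))

end Pool.Agent.R870
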