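import Mathlib
import Pool.Agent.R870.Sep2
import Pool.Agent.R870.Conv

set_option autoImplicit false

/-! # Sequences with widely separated growth of the heights: main theorem and converse -/

namespace Pool.Agent.R870

open MvPolynomial Pool.Agent.Helper259.AbsHt Pool.Agent.H533R3.SL

variable {n N : ℕ}

theorem sep_main {k : Type} [Field k] (P : Fin N → MvPolynomial (Fin (n + 1)) k)
    (hP : ∀ i, ∃ e, (P i).IsHomogeneous e) (hprime : (Ideal.span (Set.range P)).IsPrime)
    (hnu : ¬ Uniruled (Ideal.span (Set.range P))) (r : ℕ) :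
    ∃ G : MvPolynomial (Fin (n + 1)) k, (∃ e, G.IsHomogeneous e) ∧
      G ∉ Ideal.span (Set.range P) ∧
      ∀ [Algebra k Qbar] (q : ℕ) (S : Fin q → ℕ → Qbarˣ), Separated S →
        ∀ (b : Fin r → Fin q → ℕ) (α : Fin r → Qbarˣ) (l : Fin r → ℕ)
          (w : Fin r → Fin (n + 1) → Qbar), (sepOff P G S b α l w).Finite := by
  choose e he using hP
  obtain ⟨G, h1, h2, h3⟩ := exists_hyper (Set.range P) hprime hnu (∑ i, e i + 1) (by omega) (by
    rintro _ ⟨i, rfl⟩
    refine ⟨e i, ?_, he i⟩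
    have := Finset.single_le_sum (f := e) (fun _ _ => Nat.zero_le _) (Finset.mem_univ i)
    omega) r
  refine ⟨G, h1, h2, fun {_} q S hS b α l w => ?_⟩
  exact sep_finite P (fun i => ⟨_, he i⟩) G h1 (fun L _ _ c l hz hc => by
    refine h3 L c l ?_ hc
    rintro _ ⟨i, rfl⟩
    exact hz i) α l q S hS b w

/-- **Converse.** -/
theorem sep_converse (k : Type) [Field k] [NumberField k]
    (P : Fin N → MvPolynomial (Fin (n + 1)) k) (hu : Uniruled (Ideal.span (Set.range P))) :
    ∃ r : ℕ, ∀ G : MvPolynomial (Fin (n + 1)) k, (∃ e, G.IsHomogeneous e) →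
      G ∉ Ideal.span (Set.range P) →
      ∃ (_ : Algebra k Qbar) (w : Fin r → Fin (n + 1) → Qbar),
        ∀ S : ℕ → Qbarˣ, (Set.range S).Infinite →
          (sepOff P G (fun _ : Fin 1 => S) (fun j _ => (j : ℕ)) (fun _ => 1)
            (fun _ => 0) w).Infinite := by
  obtain ⟨r, hr⟩ := uniruled_curves k P hu
  refine ⟨r, fun G hG hGI => ?_⟩
  obtain ⟨K, _, _, _, v, hv⟩ := hr G hG hGI
  obtain ⟨φ⟩ : Nonempty (K →+* Qbar) := ⟨(IsAlgClosed.lift : K →ₐ[ℚ] Qbar).toRingHom⟩
  let _ : Algebra k Qbar := (φ.comp (algebraMap k K)).toAlgebra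
  let φ' : K →ₐ[k] Qbar := { φ with commutes' := fun _ => rfl }
  obtain ⟨h1, h2⟩ := hv Qbar φ'
  refine ⟨inferInstance, fun j a => φ' (v j a), fun S hS => ?_⟩
  have hterm : ∀ m : ℕ, sepv (fun _ : Fin 1 => S) (fun (j : Fin r) _ => (j : ℕ)) (fun _ => 1)
      (fun _ => 0) (fun j a => φ' (v j a)) m = cpt (fun j a => φ' (v j a)) (S m : Qbar) := by
    intro m
    funext a
    unfold sepv cpt
    refine Finset.sum_congr rfl fun j _ => ?_
    rw [Fin.prod_univ_one, Units.val_one, one_pow, pow_zero, one_mul, one_mul]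
  have hinf : (Set.range (fun m : ℕ => (S m : Qbar))).Infinite := by
    have e : Set.range (fun m : ℕ => (S m : Qbar)) = (fun u : Qbarˣ => (u : Qbar)) '' Set.range S := by
      rw [← Set.range_comp]
      rfl
    rw [e]
    exact hS.image (Units.val_injective.injOn)
  refine (h2 _ hinf).mono ?_
  rintro p ⟨_, ⟨m, rfl⟩, hG, h0, hp⟩
  have h5 : sepv (fun _ : Fin 1 => S) (fun (j : Fin r) _ => (j : ℕ)) (fun _ => 1)
      (fun _ => 0) (fun j a => φ' (v j a)) m ≠ 0 := by
    rw [hterm]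
    exact h0
  refine ⟨m, fun i => by rw [hterm]; exact h1 _ i, by rw [hterm]; exact hG, h5, ?_⟩
  exact hp.trans (Pool.Agent.Y215.SP.mk_congr h0 h5 (hterm m).symm)

end Pool.Agent.R870
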